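import Mathlib

/-!
# Matrices close to the identity have no eigenvalues which are nontrivial roots of unity (helper32)
-/

set_option autoImplicit false

namespace Pool.Agent.T9h32.EV

section
variable {F : Type*} [NormedField F] [IsUltrametricDist F] {n : ℕ}

/-- entries of `T - 1` are small -/
def Near (ε : ℝ) (T : Matrix (Fin n) (Fin n) F) : Prop := ∀ i j, ‖(T - 1) i j‖ < ε

theorem norm_sum_lt {ι : Type*} (s : Finset ι) (f : ι → F) {ε : ℝ} (hε : 0 < ε)
    (h : ∀ i ∈ s, ‖f i‖ < ε) : ‖∑ i ∈ s, f i‖ < ε := by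
  refine Finset.sum_induction f (fun x => ‖x‖ < ε) (fun a b ha hb => ?_) (by simpa using hε) h
  exact lt_of_le_of_lt (IsUltrametricDist.norm_add_le_max a b) (max_lt ha hb)

theorem Near.mul {ε : ℝ} (hε : 0 < ε) (hε1 : ε ≤ 1) {S T : Matrix (Fin n) (Fin n) F}
    (hS : Near ε S) (hT : Near ε T) : Near ε (S * T) := by
  intro i j
  have h1 : S * T - 1 = (S - 1) * (T - 1) + ((S - 1) + (T - 1)) := by noncomm_ring
  rw [h1, Matrix.add_apply, Matrix.add_apply]
  refine lt_of_le_of_lt (IsUltrametricDist.norm_add_le_max _ _) (max_lt ?_ ?_)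
  · rw [Matrix.mul_apply]
    refine norm_sum_lt _ _ hε fun k _ => ?_
    rw [norm_mul]
    calc ‖(S - 1) i k‖ * ‖(T - 1) k j‖ ≤ 1 * ‖(T - 1) k j‖ :=
          mul_le_mul_of_nonneg_right ((hS i k).le.trans hε1) (norm_nonneg _)
      _ < ε := by
        rw [one_mul]
        exact hT k j
  · exact lt_of_le_of_lt (IsUltrametricDist.norm_add_le_max _ _) (max_lt (hS i j) (hT i j))

theorem Near.one {ε : ℝ} (hε : 0 < ε) : Near ε (1 : Matrix (Fin n) (Fin n) F) := by
  intro i j
  rw [sub_self, Matrix.zero_apply, norm_zero]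
  exact hε

theorem Near.pow {ε : ℝ} (hε : 0 < ε) (hε1 : ε ≤ 1) {T : Matrix (Fin n) (Fin n) F}
    (hT : Near ε T) (k : ℕ) : Near ε (T ^ k) := by
  induction k with
  | zero =>
    rw [pow_zero]
    exact Near.one hε
  | succ k ih =>
    rw [pow_succ]
    exact ih.mul hε hε1 hT

/-- sums of powers are invertible -/
theorem Near.geom {ε : ℝ} (hε : 0 < ε) (hε1 : ε ≤ 1) {T : Matrix (Fin n) (Fin n) F}
    (hT : Near ε T) {l : ℕ} (hl : ε ≤ ‖(l : F)‖) :
    (∑ i ∈ Finset.range l, T ^ i).det ≠ 0 := by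
  intro h0
  obtain ⟨w, hw, hTw⟩ := Matrix.exists_mulVec_eq_zero_iff.2 h0
  have hne : Nonempty (Fin n) := by
    by_contra hcon
    rw [not_nonempty_iff] at hcon
    exact hw (funext fun i => (hcon.false i).elim)
  obtain ⟨k, hk⟩ := Finite.exists_max fun i => ‖w i‖
  have hwk : 0 < ‖w k‖ := by
    obtain ⟨i, hi⟩ : ∃ i, w i ≠ 0 := by
      by_contra hcon
      push Not at hcon
      exact hw (funext hcon)
    exact lt_of_lt_of_le (norm_pos_iff.2 hi) (hk i)
  have h1 : (l : F) * w k = - ∑ i ∈ Finset.range l, ((T ^ i - 1).mulVec w) k := by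
    have h2 := congrFun hTw k
    rw [Matrix.sum_mulVec, Finset.sum_apply, Pi.zero_apply] at h2
    have h3 : ∑ i ∈ Finset.range l, ((T ^ i - 1).mulVec w) k =
        ∑ i ∈ Finset.range l, ((T ^ i).mulVec w) k - (l : F) * w k := by
      rw [← nsmul_eq_mul, ← Finset.card_range l, ← Finset.sum_const, Finset.card_range,
        ← Finset.sum_sub_distrib]
      refine Finset.sum_congr rfl fun i _ => ?_
      rw [Matrix.sub_mulVec, Matrix.one_mulVec, Pi.sub_apply]
    rw [h3, h2]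
    ring
  have h2 : ‖∑ i ∈ Finset.range l, ((T ^ i - 1).mulVec w) k‖ < ε * ‖w k‖ := by
    refine norm_sum_lt _ _ (mul_pos hε hwk) fun i _ => ?_
    rw [Matrix.mulVec, dotProduct]
    refine norm_sum_lt _ _ (mul_pos hε hwk) fun m _ => ?_
    rw [norm_mul]
    calc ‖(T ^ i - 1) k m‖ * ‖w m‖ ≤ ‖(T ^ i - 1) k m‖ * ‖w k‖ :=
          mul_le_mul_of_nonneg_left (hk m) (norm_nonneg _)
      _ < ε * ‖w k‖ := mul_lt_mul_of_pos_right (hT.pow hε hε1 i k m) hwk
  rw [← norm_neg, ← h1, norm_mul] at h2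
  have h3 := lt_of_mul_lt_mul_right h2 (norm_nonneg _)
  linarith

variable {E : Type*} [Field E] [Algebra F E]

/-- no eigenvalues which are nontrivial roots of unity -/
theorem Near.eig {ε : ℝ} (hε : 0 < ε) (hε1 : ε ≤ 1) (hprime : ∀ l : ℕ, l.Prime → ε ≤ ‖(l : F)‖)
    {T : Matrix (Fin n) (Fin n) F} (hT : Near ε T) {v : Fin n → E} (hv : v ≠ 0) {ζ : E}
    (hTv : (T.map (algebraMap F E)).mulVec v = ζ • v) {a : ℕ} (ha : 0 < a) (hζ : ζ ^ a = 1) :
    ζ = 1 := by
  by_contra hne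
  have hord : 0 < orderOf ζ := orderOf_pos_iff.2 (isOfFinOrder_iff_pow_eq_one.2 ⟨a, ha, hζ⟩)
  have hord1 : orderOf ζ ≠ 1 := fun h => hne (orderOf_eq_one_iff.1 h)
  obtain ⟨l, hl, m, hm⟩ := Nat.exists_prime_and_dvd hord1
  have hm0 : 0 < m := by
    rcases Nat.eq_zero_or_pos m with h | h
    · rw [hm, h, mul_zero] at hord
      exact absurd hord (lt_irrefl _)
    · exact h
  set ζ' := ζ ^ m with hζ'
  have h1 : ζ' ^ l = 1 := by
    rw [hζ', ← pow_mul, mul_comm, ← hm, pow_orderOf_eq_one]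
  have h2 : ζ' ≠ 1 := by
    intro h
    have h3 := Nat.le_of_dvd hm0 (orderOf_dvd_of_pow_eq_one h)
    rw [hm] at h3
    have h4 := hl.two_le
    nlinarith
  have h3 : ∑ i ∈ Finset.range l, ζ' ^ i = 0 := by
    have h4 := geom_sum_mul ζ' l
    rw [h1, sub_self] at h4
    exact (mul_eq_zero.1 h4).resolve_right (sub_ne_zero.2 h2)
  have hpow : ∀ k : ℕ, ((T ^ k).map (algebraMap F E)).mulVec v = ζ ^ k • v := by
    intro k
    induction k with
    | zero =>
      rw [pow_zero, pow_zero, one_smul, Matrix.map_one _ (map_zero _) (map_one _),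
        Matrix.one_mulVec]
    | succ k ih =>
      rw [pow_succ', Matrix.map_mul, ← Matrix.mulVec_mulVec, ih, Matrix.mulVec_smul, hTv,
        smul_smul, pow_succ]
  have h5 : ((∑ i ∈ Finset.range l, (T ^ m) ^ i).map (algebraMap F E)).mulVec v = 0 := by
    have e1 : (∑ i ∈ Finset.range l, (T ^ m) ^ i).map (algebraMap F E) =
        ∑ i ∈ Finset.range l, ((T ^ m) ^ i).map (algebraMap F E) := by
      have := map_sum (algebraMap F E).mapMatrix (fun i => (T ^ m) ^ i) (Finset.range l)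
      exact this
    rw [e1, Matrix.sum_mulVec]
    have e2 : ∀ i ∈ Finset.range l, (((T ^ m) ^ i).map (algebraMap F E)).mulVec v =
        ζ' ^ i • v := by
      intro i _
      rw [← pow_mul, hpow, hζ', ← pow_mul]
    rw [Finset.sum_congr rfl e2, ← Finset.sum_smul, h3, zero_smul]
  have h6 : ((∑ i ∈ Finset.range l, (T ^ m) ^ i).map (algebraMap F E)).det = 0 :=
    Matrix.exists_mulVec_eq_zero_iff.1 ⟨v, hv, h5⟩
  have h7 : (∑ i ∈ Finset.range l, (T ^ m) ^ i).det = 0 := by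
    have h8 := RingHom.map_det (algebraMap F E) (∑ i ∈ Finset.range l, (T ^ m) ^ i)
    rw [RingHom.mapMatrix_apply, h6] at h8
    exact (map_eq_zero _).1 h8
  exact (hT.pow hε hε1 m).geom hε hε1 (hprime l hl) h7

end

section padic
variable (p : ℕ) [hp : Fact p.Prime] (F : Type*) [NormedField F] [NormedAlgebra ℚ_[p] F]

include hp in
theorem ultra : IsUltrametricDist F := by
  apply IsUltrametricDist.isUltrametricDist_of_forall_norm_natCast_le_one
  intro m
  have h1 : (m : F) = algebraMap ℚ_[p] F m := (map_natCast _ _).symm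
  rw [h1, norm_algebraMap']
  exact_mod_cast Padic.norm_int_le_one (p := p) (m : ℤ)

theorem norm_prime (l : ℕ) (hl : l.Prime) : ((p : ℝ))⁻¹ ≤ ‖(l : F)‖ := by
  have h1 : (l : F) = algebraMap ℚ_[p] F l := (map_natCast _ _).symm
  rw [h1, norm_algebraMap']
  by_cases h : l = p
  · rw [h, Padic.norm_p]
  · have h2 : ‖(l : ℚ_[p])‖ = 1 := by
      rw [Padic.norm_natCast_eq_one_iff]
      exact (Nat.coprime_primes hp.out hl).2 (Ne.symm h)
    rw [h2]
    have h3 : (1 : ℝ) ≤ p := by exact_mod_cast hp.out.one_le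
    exact inv_le_one_of_one_le₀ h3

end padic

end Pool.Agent.T9h32.EV
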