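import Mathlib

/-!
# Algebra: Burnside's theorem, traces and characters, stable simple subspaces (helper32)
-/

set_option autoImplicit false

namespace Pool.Agent.T9h32.EV

open Module

section chars
variable {E : Type*} [Field E] [CharZero E] {V : Type*} [AddCommGroup V] [Module E V]
  [FiniteDimensional E V] [Nontrivial V] {R : Type*} [Ring R] [Algebra E R]

omit [CharZero E] [Nontrivial V] in
/-- the identity lies in the ideal generated by a nonzero endomorphism -/
theorem exists_ideal (π : R →ₐ[E] Module.End E V) (hπ : Function.Surjective π) {z : R}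
    (hz : π z ≠ 0) (χ : R →ₐ[E] E) (hχ : χ z = 0) : ∃ y : R, π y = 1 ∧ χ y = 0 := by
  classical
  obtain ⟨v, hv⟩ : ∃ v, π z v ≠ 0 := by
    by_contra hcon
    push Not at hcon
    exact hz (LinearMap.ext hcon)
  obtain ⟨l, hl⟩ : ∃ l : V →ₗ[E] E, l (π z v) = 1 := by
    have h1 : ¬ ∀ l : Module.Dual E V, l (π z v) = 0 := fun h =>
      hv ((Module.forall_dual_apply_eq_zero_iff E _).1 h)
    push Not at h1
    obtain ⟨l, hl⟩ := h1
    refine ⟨(l (π z v))⁻¹ • l, ?_⟩
    rw [LinearMap.smul_apply, smul_eq_mul, inv_mul_cancel₀ hl]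
  let b := Module.finBasis E V
  choose A hA using fun i => hπ (l.smulRight (b i))
  choose B hB using fun i => hπ ((b.coord i).smulRight v)
  refine ⟨∑ i, A i * z * B i, ?_, ?_⟩
  · apply b.ext
    intro k
    rw [map_sum, LinearMap.sum_apply]
    rw [Finset.sum_eq_single k]
    · rw [map_mul, map_mul, hA, hB]
      simp [hl]
    · intro i _ hik
      rw [map_mul, map_mul, hA, hB]
      simp [Finsupp.single_eq_of_ne hik]
    · intro h
      exact absurd (Finset.mem_univ k) h
  · rw [map_sum]
    refine Finset.sum_eq_zero fun i _ => ?_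
    rw [map_mul, map_mul, hχ, mul_zero, zero_mul]

/-- if the trace of `G x` is a combination of characters then the module is a character -/
theorem exists_char (π : R →ₐ[E] Module.End E V) (hπ : Function.Surjective π) {r : ℕ}
    (χ : Fin r → R →ₐ[E] E) (C : Fin r → E) (G G' : Module.End E V) (hG : G * G' = 1)
    (htr : ∀ x, LinearMap.trace E V (G * π x) = ∑ j, C j * χ j x) :
    ∃ j, ∀ x, π x = algebraMap E (Module.End E V) (χ j x) := by
  classical
  by_contra hcon
  push Not at hcon
  choose x hx using hcon
  have h1 : ∀ j, ∃ y : R, π y = 1 ∧ χ j y = 0 := by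
    intro j
    refine exists_ideal π hπ (z := x j - algebraMap E R (χ j (x j))) ?_ (χ j) ?_
    · rw [map_sub, AlgHom.commutes, sub_ne_zero]
      exact hx j
    · rw [map_sub, AlgHom.commutes]
      simp
  choose y hy1 hy2 using h1
  set Y : R := (List.ofFn y).prod with hY
  have hπY : π Y = 1 := by
    rw [hY, map_list_prod, List.map_ofFn]
    apply List.prod_eq_one
    intro a ha
    rw [List.mem_ofFn] at ha
    obtain ⟨j, rfl⟩ := ha
    exact hy1 j
  have hχY : ∀ j, χ j Y = 0 := by
    intro j
    rw [hY, map_list_prod]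
    apply List.prod_eq_zero
    rw [List.mem_map]
    exact ⟨y j, (List.mem_ofFn' _ _).2 ⟨j, rfl⟩, hy2 j⟩
  obtain ⟨w, hw⟩ := hπ G'
  have h2 := htr (w * Y)
  rw [map_mul π, hw, hπY, mul_one, hG, LinearMap.trace_one] at h2
  have h3 : ∑ j, C j * χ j (w * Y) = 0 := by
    refine Finset.sum_eq_zero fun j _ => ?_
    rw [map_mul, hχY, mul_zero, mul_zero]
  rw [h3] at h2
  exact (Nat.cast_ne_zero.2 (Module.finrank_pos (R := E) (M := V)).ne') h2

end chars

section burnside
variable {E : Type*} [Field E] [IsAlgClosed E] {V : Type*} [AddCommGroup V] [Module E V]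
  [FiniteDimensional E V] {G : Type*} [Group G]

/-- **Burnside's theorem** -/
theorem burnside (ρ : G →* Module.End E V) (hV : Nontrivial V)
    (hirr : ∀ W : Submodule E V, (∀ g, ∀ x ∈ W, ρ g x ∈ W) → W = ⊥ ∨ W = ⊤) :
    Function.Surjective (MonoidAlgebra.lift E (Module.End E V) G ρ) := by
  classical
  set π := MonoidAlgebra.lift E (Module.End E V) G ρ with hπ
  set 𝒜 : Subalgebra E (Module.End E V) := π.range with h𝒜
  have hρ : ∀ g, ρ g ∈ 𝒜 := fun g => ⟨MonoidAlgebra.single g 1, by rw [hπ]; simp⟩
  have hsimple : IsSimpleModule 𝒜 V := by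
    refine { exists_pair_ne := ⟨⊥, ⊤, ?_⟩, eq_bot_or_eq_top := ?_ }
    · intro h
      obtain ⟨x, hx⟩ := exists_ne (0 : V)
      have : x ∈ (⊥ : Submodule 𝒜 V) := by
        rw [h]
        trivial
      exact hx ((Submodule.mem_bot _).1 this)
    · intro W
      rcases hirr (W.restrictScalars E) (fun g x hx => W.smul_mem (⟨ρ g, hρ g⟩ : 𝒜) hx) with h | h
      · left
        rw [eq_bot_iff]
        intro x hx
        have h1 : x ∈ W.restrictScalars E := hx
        rw [h] at h1
        exact (Submodule.mem_bot _).2 ((Submodule.mem_bot _).1 h1)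
      · right
        rw [eq_top_iff]
        intro x _
        have h1 : x ∈ W.restrictScalars E := by
          rw [h]
          trivial
        exact h1
  have hschur := IsSimpleModule.algebraMap_end_bijective_of_isAlgClosed (A := 𝒜) (V := V) E
  have hfin : Module.Finite (Module.End 𝒜 V) V := by
    obtain ⟨s, hs⟩ := (inferInstance : Module.Finite E V).fg_top
    refine ⟨⟨s, ?_⟩⟩
    rw [eq_top_iff]
    intro v _
    have hv : v ∈ Submodule.span E (s : Set V) := by rw [hs]; trivial
    induction hv using Submodule.span_induction with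
    | mem v hv => exact Submodule.subset_span hv
    | zero => exact Submodule.zero_mem _
    | add u v _ _ hu hv => exact Submodule.add_mem _ (hu trivial) (hv trivial)
    | smul c v _ hv =>
      have h1 : c • v = (algebraMap E (Module.End 𝒜 V) c) • v := rfl
      rw [h1]
      exact Submodule.smul_mem _ _ (hv trivial)
  have hsurj := Module.Finite.toModuleEnd_moduleEnd_surjective (R := 𝒜) (M := V)
  intro T
  obtain ⟨a, ha⟩ := hsurj
    { toFun := T
      map_add' := T.map_add
      map_smul' := by
        intro c v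
        obtain ⟨t, rfl⟩ := hschur.2 c
        exact T.map_smul t v }
  have h1 : (a : Module.End E V) = T := by
    ext v
    exact congrArg (fun f => f v) ha
  obtain ⟨x, hx⟩ := a.2
  exact ⟨x, by rw [← h1]; exact hx⟩

end burnside

end Pool.Agent.T9h32.EV
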