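import Pool.Agent.T9h32.EV.Dich

/-!
# A common point of few translates (helper32)
-/

set_option autoImplicit false

namespace Pool.Agent.T9h32.EV

open MeasureTheory Topology

variable {Γ : Type*} [Group Γ] [TopologicalSpace Γ] [IsTopologicalGroup Γ] [CompactSpace Γ]
  [MeasurableSpace Γ] [BorelSpace Γ]

theorem exists_common (μ : Measure Γ) [μ.IsMulLeftInvariant] [IsProbabilityMeasure μ] {X : Set Γ}
    {U : Subgroup Γ} (hU : IsOpen (U : Set Γ))
    (hd : ∀ g : Γ, μ (X ∩ {x | g⁻¹ * x ∈ U}) ≠ 0 → ∀ u ∈ U, g * u ∈ X) {c : ℝ}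
    (hc : ENNReal.ofReal c ≤ μ X) (L : List Γ) (hL : L.length * (1 - c) < 1) :
    ∃ g : Γ, ∀ γ ∈ L, ∀ u ∈ U, γ⁻¹ * g * u ∈ X := by
  classical
  have hfin : Finite (Γ ⧸ U) := Subgroup.quotient_finite_of_isOpen _ hU
  set G : Set Γ := {g | ∀ u ∈ U, g * u ∈ X} with hG
  have hGU : ∀ g ∈ G, ∀ u ∈ U, g * u ∈ G := by
    intro g hg u hu u' hu'
    rw [mul_assoc]
    exact hg _ (U.mul_mem hu hu')
  have hGo : IsOpen G := by
    have h1 : G = ⋃ x ∈ G, (fun y => x⁻¹ * y) ⁻¹' (U : Set Γ) := by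
      ext y
      constructor
      · intro hy
        refine Set.mem_biUnion hy ?_
        rw [Set.mem_preimage, inv_mul_cancel]
        exact U.one_mem
      · intro hy
        rw [Set.mem_iUnion₂] at hy
        obtain ⟨x, hx, hxy⟩ := hy
        have := hGU x hx _ hxy
        rwa [mul_inv_cancel_left] at this
    rw [h1]
    exact isOpen_biUnion fun x _ => hU.preimage (continuous_const.mul continuous_id)
  have hnull : μ (X \ G) = 0 := by
    have h1 : X \ G = ⋃ q : Γ ⧸ U, {x | x ∈ X \ G ∧ (x : Γ ⧸ U) = q} := by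
      ext x
      simp
    rw [h1]
    refine measure_iUnion_null fun q => ?_
    by_cases hne : ({x | x ∈ X \ G ∧ (x : Γ ⧸ U) = q} : Set Γ).Nonempty
    · obtain ⟨x₀, hx₀, rfl⟩ := hne
      refine measure_mono_null (t := X ∩ {x | x₀⁻¹ * x ∈ U}) ?_ ?_
      · rintro x ⟨hx, hxq⟩
        exact ⟨hx.1, QuotientGroup.eq.1 hxq.symm⟩
      · by_contra hne
        exact hx₀.2 (hd x₀ hne)
    · rw [Set.not_nonempty_iff_eq_empty.1 hne]
      exact measure_empty
  have hGm : MeasurableSet G := hGo.measurableSet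
  have hGc : ENNReal.ofReal c ≤ μ G := by
    refine hc.trans ?_
    have h1 : X ⊆ G ∪ (X \ G) := by
      intro x hx
      by_cases hxG : x ∈ G
      · exact Or.inl hxG
      · exact Or.inr ⟨hx, hxG⟩
    refine (measure_mono h1).trans ((measure_union_le _ _).trans ?_)
    rw [hnull, add_zero]
  by_contra hcon
  push Not at hcon
  have hcov : (Set.univ : Set Γ) ⊆ ⋃ γ ∈ L.toFinset, (fun x => γ⁻¹ * x) ⁻¹' Gᶜ := by
    intro g _
    obtain ⟨γ, hγ, u, hu, hX⟩ := hcon g
    refine Set.mem_biUnion (List.mem_toFinset.2 hγ) ?_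
    intro h1
    exact hX (h1 u hu)
  have h1 : (1 : ENNReal) ≤ L.length * μ Gᶜ := by
    calc (1 : ENNReal) = μ Set.univ := measure_univ.symm
      _ ≤ μ (⋃ γ ∈ L.toFinset, (fun x => γ⁻¹ * x) ⁻¹' Gᶜ) := measure_mono hcov
      _ ≤ ∑ γ ∈ L.toFinset, μ ((fun x => γ⁻¹ * x) ⁻¹' Gᶜ) := measure_biUnion_finset_le _ _
      _ = L.toFinset.card * μ Gᶜ := by
        rw [Finset.sum_congr rfl fun γ _ => measure_preimage_mul μ γ⁻¹ _, Finset.sum_const,
          nsmul_eq_mul]
      _ ≤ L.length * μ Gᶜ := by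
        gcongr
        exact_mod_cast L.toFinset_card_le
  have h2 : μ Gᶜ ≤ ENNReal.ofReal (1 - c) := by
    rw [prob_compl_eq_one_sub hGm]
    calc 1 - μ G ≤ 1 - ENNReal.ofReal c := tsub_le_tsub_left hGc _
      _ ≤ ENNReal.ofReal (1 - c) := by
        rw [tsub_le_iff_right]
        calc (1 : ENNReal) = ENNReal.ofReal ((1 - c) + c) := by simp
          _ ≤ ENNReal.ofReal (1 - c) + ENNReal.ofReal c := ENNReal.ofReal_add_le
  have h3 : (1 : ENNReal) ≤ ENNReal.ofReal (L.length * (1 - c)) := by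
    rw [ENNReal.ofReal_mul (Nat.cast_nonneg _), ENNReal.ofReal_natCast]
    exact h1.trans (by gcongr)
  rw [← ENNReal.ofReal_one] at h3
  have h4 : (1 : ℝ) ≤ L.length * (1 - c) := by
    by_contra hlt
    push Not at hlt
    have := (ENNReal.ofReal_lt_ofReal_iff one_pos).2 hlt
    exact absurd h3 (not_le.2 this)
  linarith

end Pool.Agent.T9h32.EV
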