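import Pool.Agent.T9h32.EV.Good
import Pool.Agent.T9h32.EV.Meas

/-!
# The main argument (helper32)
-/

set_option autoImplicit false

namespace Pool.Agent.T9h32.EV

open MeasureTheory Topology Polynomial Pool.Agent.R401.Img Module

section tau
variable {E : Type*} [Field E] {V : Type*} [AddCommGroup V] [Module E V]

/-- a projection to a subspace -/
theorem exists_proj (W : Submodule E V) : ∃ P : V →ₗ[E] W, ∀ x : W, P x = x := by
  obtain ⟨P, hP⟩ := W.subtype.exists_leftInverse_of_injective W.ker_subtype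
  exact ⟨P, fun x => LinearMap.congr_fun hP x⟩

theorem trace_restrict (W : Submodule E V) {P : V →ₗ[E] W} (hP : ∀ x : W, P x = x)
    (T : Module.End E V) (hT : ∀ x ∈ W, T x ∈ W) :
    LinearMap.trace E W (P ∘ₗ T ∘ₗ W.subtype) = LinearMap.trace E W (T.restrict hT) := by
  congr 1
  ext x
  show ((P (T x) : W) : V) = T x
  have h1 := hP ⟨T x, hT x x.2⟩
  exact congrArg Subtype.val h1

/-- the trace is the sum of eigenvalues -/
theorem trace_eigen [IsAlgClosed E] [FiniteDimensional E V] (T : Module.End E V) :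
    ∃ z : Fin (finrank E V) → E, LinearMap.trace E V T = ∑ i, z i ∧
      ∀ i, ∃ v : V, v ≠ 0 ∧ T v = z i • v := by
  classical
  let b := Module.finBasis E V
  have h1 : LinearMap.trace E V T = (T.charpoly.roots).sum := by
    rw [LinearMap.trace_eq_matrix_trace E b, Matrix.trace_eq_sum_roots_charpoly,
      LinearMap.charpoly_toMatrix]
  have hs := IsAlgClosed.splits T.charpoly
  have hcard : Multiset.card T.charpoly.roots = finrank E V := by
    rw [← hs.natDegree_eq_card_roots, LinearMap.charpoly_natDegree]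
  obtain ⟨l, hl⟩ : ∃ l : List E, (l : Multiset E) = T.charpoly.roots :=
    ⟨T.charpoly.roots.toList, Multiset.coe_toList _⟩
  have hlen : l.length = finrank E V := by
    rw [← hcard, ← hl, Multiset.coe_card]
  refine ⟨fun i => l.get (Fin.cast hlen.symm i), ?_, ?_⟩
  · rw [h1, ← hl, Multiset.sum_coe, ← Fin.sum_univ_getElem l]
    exact (Fintype.sum_equiv (finCongr hlen.symm) _ _ fun i => rfl).symm
  · intro i
    have h2 : l.get (Fin.cast hlen.symm i) ∈ T.charpoly.roots := by
      rw [← hl]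
      exact Multiset.mem_coe.2 (List.get_mem _ _)
    have h3 : Module.End.HasEigenvalue T (l.get (Fin.cast hlen.symm i)) := by
      rw [Module.End.hasEigenvalue_iff_isRoot_charpoly]
      exact (mem_roots'.1 h2).2
    obtain ⟨v, hv⟩ := h3.exists_hasEigenvector
    exact ⟨v, hv.2, hv.apply_eq_smul⟩

end tau

section core
variable {Γ : Type} [Group Γ] {F : Type} [Field F] (E : Type) [Field E] [Algebra F E] {n r : ℕ}
  (ρ : Γ →* GL (Fin n) F) (ψ : Fin r → Γ →* F)

/-- the action over the large field -/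
noncomputable def rE : Γ →* Module.End E (Fin n → E) where
  toFun g := Matrix.toLin' (mE E ρ g)
  map_one' := by
    rw [mE_one, Matrix.toLin'_one]
    rfl
  map_mul' g h := by
    rw [mE_mul, Matrix.toLin'_mul]
    rfl

variable {E ρ ψ}

theorem rE_apply (g : Γ) (x : Fin n → E) : rE E ρ g x = (mE E ρ g).mulVec x := rfl

theorem lin_mem (l : Matrix (Fin n) (Fin n) E →ₗ[E] E) :
    (fun g => l (mE E ρ g)) ∈ reg E (xx ρ ψ) := by
  have h1 : (fun g => l (mE E ρ g)) = ∑ i, ∑ j, (l (Matrix.single i j 1)) •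
      (fun g => mE E ρ g i j) := by
    funext g
    rw [Finset.sum_apply]
    conv_lhs => rw [Matrix.matrix_eq_sum_single (mE E ρ g)]
    rw [map_sum]
    refine Finset.sum_congr rfl fun i _ => ?_
    rw [map_sum, Finset.sum_apply]
    refine Finset.sum_congr rfl fun j _ => ?_
    have h2 : Matrix.single i j (mE E ρ g i j) = (mE E ρ g i j) • Matrix.single i j (1 : E) := by
      rw [Matrix.smul_single, smul_eq_mul, mul_one]
    rw [h2, map_smul, Pi.smul_apply, smul_eq_mul, smul_eq_mul, mul_comm]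
  rw [h1]
  exact Subalgebra.sum_mem _ fun i _ => Subalgebra.sum_mem _ fun j _ =>
    Subalgebra.smul_mem _ (mE_mem i j) _

/-- eigenvalues of good elements on subspaces -/
theorem XX_eigen {N : ℕ} {g : Γ} (hg : g ∈ XX E ρ ψ N) {v : Fin n → E} (hv : v ≠ 0) {z : E}
    (hz : rE E ρ g v = z • v) : ∃ j, z ^ N = algebraMap F E (ψ j g) ^ N := by
  apply hg
  rw [← Matrix.charpoly_toLin', ← Module.End.hasEigenvalue_iff_isRoot_charpoly]
  exact Module.End.hasEigenvalue_of_hasEigenvector (x := v)
    ⟨Module.End.mem_eigenspace_iff.2 hz, hv⟩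

variable [TopologicalSpace Γ] [IsTopologicalGroup Γ] [CompactSpace Γ] [MeasurableSpace Γ]
  [BorelSpace Γ] [TopologicalSpace F] [IsTopologicalRing F] [T2Space F]

theorem core [IsAlgClosed E] [CharZero E] (hn : 0 < n) (hρ : Continuous ρ)
    (hirr : ∀ W : Submodule F (Fin n → F), Stab ρ W → W = ⊥ ∨ W = ⊤)
    (hψ : ∀ j, Continuous (ψ j)) {N : ℕ} (hN : 0 < N) (μ : Measure Γ) [μ.IsMulLeftInvariant]
    [IsProbabilityMeasure μ] [μ.IsOpenPosMeasure] {c : ℝ} (hc : n * (1 - c) < 1)
    (hμ : ENNReal.ofReal c ≤ μ (XX E ρ ψ N)) :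
    ∃ j, ∃ U : Subgroup Γ, IsOpen (U : Set Γ) ∧ ∀ u ∈ U, mt ρ u = ψ j u • (1 : Matrix _ _ F) := by
  classical
  have hxx : ∀ i, Continuous (xx ρ ψ i) := by
    rintro (⟨i, j⟩ | j)
    · exact Pool.Agent.R401.Sup.continuous_entry ρ hρ i j
    · exact hψ j
  have hZF := zFam_zfam (E := E) hxx xx_left
  have huniv : μ Set.univ ≠ 0 := by
    rw [measure_univ]
    exact one_ne_zero
  obtain ⟨U, hUo, hUn, hd⟩ := dichotomy μ huniv hZF
  have hnt : Nontrivial (Fin n → E) := by
    have : Nonempty (Fin n) := ⟨⟨0, hn⟩⟩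
    infer_instance
  obtain ⟨W, hW⟩ := exists_simple (ρ := rE E ρ) (U := U)
  obtain ⟨L, hL, hLT⟩ := exists_list hW
  rw [finrank_fin_fun] at hL
  -- a common point
  have hL1 : L.length * (1 - c) < 1 := by
    rcases le_or_gt 0 (1 - c) with h0 | h0
    · refine lt_of_le_of_lt ?_ hc
      exact mul_le_mul_of_nonneg_right (by exact_mod_cast hL) h0
    · refine lt_of_le_of_lt ?_ one_pos
      exact mul_nonpos_of_nonneg_of_nonpos (Nat.cast_nonneg _) h0.le
  obtain ⟨g₀, hg₀⟩ := exists_common μ hUo (hd _ (XX_mem N)) hμ L hL1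
  obtain ⟨γ, hγ, hT⟩ := hLT g₀
  set g : Γ := γ⁻¹ * g₀ with hg
  have hgX : ∀ u ∈ U, g * u ∈ XX E ρ ψ N := hg₀ γ hγ
  obtain ⟨W', hW', hgW'⟩ := exists_stable hW hT
  obtain ⟨P, hP⟩ := exists_proj W'
  set d := finrank E W' with hdd
  -- the trace function
  let l : Matrix (Fin n) (Fin n) E →ₗ[E] E :=
    { toFun := fun M => LinearMap.trace E W' (P ∘ₗ Matrix.toLin' M ∘ₗ W'.subtype)
      map_add' := by
        intro M M'
        rw [map_add, LinearMap.add_comp, LinearMap.comp_add, map_add]
      map_smul' := by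
        intro a M
        rw [map_smul, LinearMap.smul_comp, LinearMap.comp_smul, map_smul]
        rfl }
  have hl : ∀ (h : Γ) (hh : ∀ x ∈ W', rE E ρ h x ∈ W'), l (mE E ρ h) =
      LinearMap.trace E W' ((rE E ρ h).restrict hh) := fun h hh => trace_restrict W' hP _ hh
  have hst : ∀ u ∈ U, ∀ x ∈ W', rE E ρ (g * u) x ∈ W' := by
    intro u hu x hx
    rw [rho_mul]
    exact hgW' _ (hW'.1 u hu x hx)
  -- the finite set of types
  have hfinμ : Finite {ζ : E // ζ ^ N = 1} := by
    have h1 : {ζ : E | ζ ^ N = 1} ⊆ ((X ^ N - C (1 : E)).roots.toFinset : Set E) := by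
      intro ζ hζ
      rw [Finset.mem_coe, Multiset.mem_toFinset, mem_roots (X_pow_sub_C_ne_zero hN 1)]
      simpa [sub_eq_zero] using hζ
    exact (Set.Finite.subset (Finset.finite_toSet _) h1).to_subtype
  let Z : (Fin d → {ζ : E // ζ ^ N = 1} × Fin r) → Set Γ := fun t =>
    {h | l (mE E ρ h) = ∑ i, ((t i).1 : E) * algebraMap F E (ψ (t i).2 h)}
  have hZ : ∀ t, Z t ∈ zfam E (xx ρ ψ) := by
    intro t
    refine ⟨{(fun h => l (mE E ρ h)) - ∑ i, ((t i).1 : E) • fun h => algebraMap F E (ψ (t i).2 h)},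
      ?_, ?_⟩
    · rw [Set.singleton_subset_iff]
      exact Subalgebra.sub_mem _ (lin_mem l) (Subalgebra.sum_mem _ fun i _ =>
        Subalgebra.smul_mem _ (psi_mem _) _)
    · ext h
      simp only [Z, zs, Set.mem_setOf_eq, Set.mem_singleton_iff, forall_eq, Pi.sub_apply,
        Finset.sum_apply, Pi.smul_apply, smul_eq_mul, sub_eq_zero]
  have hcov : {x | g⁻¹ * x ∈ U} ⊆ ⋃ t, Z t ∩ {x | g⁻¹ * x ∈ U} := by
    intro h hh
    have hh' : g⁻¹ * h ∈ U := hh
    have e1 : h = g * (g⁻¹ * h) := by group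
    have hhX : h ∈ XX E ρ ψ N := by
      rw [e1]
      exact hgX _ hh'
    have hhW : ∀ x ∈ W', rE E ρ h x ∈ W' := by
      rw [e1]
      exact hst _ hh'
    obtain ⟨z, hz1, hz2⟩ := trace_eigen ((rE E ρ h).restrict hhW)
    have h3 : ∀ i, ∃ (ζ : {ζ : E // ζ ^ N = 1}) (j : Fin r),
        z i = (ζ : E) * algebraMap F E (ψ j h) := by
      intro i
      obtain ⟨v, hv, hvz⟩ := hz2 i
      obtain ⟨j, hj⟩ := XX_eigen hhX (v := (v : Fin n → E)) (fun h0 => hv (Subtype.ext h0))
        (z := z i) (congrArg Subtype.val hvz)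
      have hne : algebraMap F E (ψ j h) ≠ 0 := by
        rw [Ne, map_eq_zero]
        exact Pool.Agent.R401.Sup.c_ne (ψ j) h
      refine ⟨⟨z i / algebraMap F E (ψ j h), ?_⟩, j, ?_⟩
      · rw [div_pow, hj, div_self (pow_ne_zero _ hne)]
      · rw [div_mul_cancel₀ _ hne]
    choose ζ j hζ using h3
    rw [Set.mem_iUnion]
    refine ⟨fun i => (ζ i, j i), ?_, hh⟩
    show l (mE E ρ h) = _
    rw [hl h hhW, hz1]
    exact Finset.sum_congr rfl fun i _ => hζ i
  obtain ⟨t, ht⟩ : ∃ t, μ (Z t ∩ {x | g⁻¹ * x ∈ U}) ≠ 0 := by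
    by_contra hcon
    push Not at hcon
    have h1 : μ {x | g⁻¹ * x ∈ U} = 0 :=
      measure_mono_null hcov (measure_iUnion_null hcon)
    have h2 : IsOpen {x | g⁻¹ * x ∈ U} := hUo.preimage (continuous_const.mul continuous_id)
    refine (h2.measure_pos μ ⟨g, ?_⟩).ne' h1
    show g⁻¹ * g ∈ U
    rw [inv_mul_cancel]
    exact U.one_mem
  have htype := hd _ (hZ t) g ht
  -- the action on the simple subspace
  let ρ' : U →* Module.End E W' :=
    { toFun := fun u => (rE E ρ (u : Γ)).restrict (hW'.1 u u.2)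
      map_one' := by
        ext x : 2
        show ((rE E ρ 1 x : Fin n → E)) = x
        rw [map_one]
        rfl
      map_mul' := by
        intro u u'
        ext x : 2
        show rE E ρ (u * u') x = rE E ρ u (rE E ρ u' x)
        rw [rho_mul] }
  have hρ' : ∀ (u : U) (x : W'), ((ρ' u x : W') : Fin n → E) = rE E ρ u x := fun u x => rfl
  have hW'nt : Nontrivial W' := (Submodule.nontrivial_iff_ne_bot).2 hW'.2.1
  have hburn := burnside ρ' hW'nt (by
    intro S hS
    rcases hW'.2.2 (S.map W'.subtype) (Submodule.map_subtype_le _ _) (by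
      rintro u hu _ ⟨x, hx, rfl⟩
      exact ⟨ρ' ⟨u, hu⟩ x, hS ⟨u, hu⟩ x hx, rfl⟩) with h1 | h1
    · left
      rw [eq_bot_iff]
      intro x hx
      have h2 : (x : Fin n → E) ∈ S.map W'.subtype := ⟨x, hx, rfl⟩
      rw [h1, Submodule.mem_bot] at h2
      exact (Submodule.mem_bot _).2 (Subtype.ext h2)
    · right
      rw [eq_top_iff]
      intro x _
      have h2 : (x : Fin n → E) ∈ S.map W'.subtype := by
        rw [h1]
        exact x.2
      obtain ⟨y, hy, hyx⟩ := h2
      rwa [← Subtype.ext hyx])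
  let G : Module.End E W' := (rE E ρ g).restrict hgW'
  have hGinj : Function.Injective G := by
    intro x y hxy
    exact Subtype.ext (rho_inj (ρ := rE E ρ) g (congrArg Subtype.val hxy))
  let Ge : W' ≃ₗ[E] W' := LinearEquiv.ofInjectiveEndo G hGinj
  have hGG : G * (Ge.symm : W' →ₗ[E] W') = 1 := by
    ext x : 1
    show G (Ge.symm x) = x
    exact Ge.apply_symm_apply x
  let ψE : Fin r → U →* E := fun j => ((algebraMap F E).toMonoidHom.comp (ψ j)).comp U.subtype
  have hψE : ∀ j (u : U), ψE j u = algebraMap F E (ψ j u) := fun j u => rfl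
  let C' : Fin r → E := fun j => ∑ i, if (t i).2 = j then ((t i).1 : E) * algebraMap F E (ψ j g)
    else 0
  obtain ⟨j, hj⟩ := exists_char (MonoidAlgebra.lift E (Module.End E W') U ρ') hburn
    (fun j => MonoidAlgebra.lift E E U (ψE j)) C' G (Ge.symm : W' →ₗ[E] W') hGG (by
    intro x
    induction x using MonoidAlgebra.induction_linear with
    | zero => simp
    | add x y hx hy =>
      rw [map_add, mul_add, map_add, hx, hy, ← Finset.sum_add_distrib]
      refine Finset.sum_congr rfl fun j _ => ?_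
      rw [map_add, mul_add]
    | single u a =>
      have e1 : (MonoidAlgebra.lift E (Module.End E W') U ρ') (MonoidAlgebra.single u a) =
          a • ρ' u := MonoidAlgebra.lift_single _ _ _
      have e2 : ∀ j, (MonoidAlgebra.lift E E U (ψE j)) (MonoidAlgebra.single u a) =
          a * ψE j u := fun j => MonoidAlgebra.lift_single _ _ _
      have e3 : LinearMap.trace E W' (G * ρ' u) = l (mE E ρ (g * u)) := by
        rw [hl _ (hst u u.2)]
        congr 1
        ext x : 2
        exact (rho_mul (ρ := rE E ρ) g (u : Γ) (x : Fin n → E)).symm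
      have e4 : l (mE E ρ (g * u)) = ∑ i, ((t i).1 : E) * algebraMap F E (ψ (t i).2 (g * u)) :=
        htype u u.2
      rw [e1, mul_smul_comm, map_smul, e3, e4, smul_eq_mul]
      simp only [e2, C']
      rw [Finset.mul_sum]
      simp only [Finset.sum_mul]
      rw [Finset.sum_comm]
      refine Finset.sum_congr rfl fun i _ => ?_
      rw [Finset.sum_eq_single (t i).2]
      · rw [if_pos rfl, hψE, map_mul, map_mul]
        ring
      · intro j _ hj
        rw [if_neg hj.symm, zero_mul]
      · intro h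
        exact absurd (Finset.mem_univ _) h)
  -- the vectors
  obtain ⟨v, hv⟩ := exists_ne (0 : W')
  have hvU : ∀ u ∈ U, (mE E ρ u).mulVec (v : Fin n → E) = algebraMap F E (ψ j u) •
      (v : Fin n → E) := by
    intro u hu
    have h1 := hj (MonoidAlgebra.single ⟨u, hu⟩ 1)
    have e1 : (MonoidAlgebra.lift E (Module.End E W') U ρ') (MonoidAlgebra.single ⟨u, hu⟩ 1) =
        (1 : E) • ρ' ⟨u, hu⟩ := MonoidAlgebra.lift_single _ _ _
    have e2 : (MonoidAlgebra.lift E E U (ψE j)) (MonoidAlgebra.single ⟨u, hu⟩ 1) =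
        (1 : E) * ψE j ⟨u, hu⟩ := MonoidAlgebra.lift_single _ _ _
    rw [e1, e2, one_smul, one_mul] at h1
    have h2 := congrArg (fun T : Module.End E W' => ((T v : W') : Fin n → E)) h1
    exact h2
  refine ⟨j, U, hUo, ?_⟩
  -- descent to `F`
  let S : Submodule F (Fin n → F) :=
    { carrier := {w | ∀ u ∈ U, (mt ρ u).mulVec w = ψ j u • w}
      add_mem' := by
        intro a b ha hb u hu
        rw [Matrix.mulVec_add, ha u hu, hb u hu, smul_add]
      zero_mem' := by
        intro u hu
        rw [Matrix.mulVec_zero, smul_zero]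
      smul_mem' := by
        intro a w hw u hu
        rw [Matrix.mulVec_smul, hw u hu, smul_comm] }
  have hSst : Stab ρ S := by
    intro h w hw u hu
    have hconj : h⁻¹ * u * h ∈ U := by
      have := hUn.conj_mem u hu h⁻¹
      rwa [inv_inv] at this
    have h1 := hw _ hconj
    have h2 : ψ j (h⁻¹ * u * h) = ψ j u := by
      have := psi_conj (ψ := ψ) j u h⁻¹
      rwa [inv_inv] at this
    rw [h2] at h1
    rw [Matrix.mulVec_mulVec, ← mt_mul, ← Matrix.mulVec_smul, ← h1, Matrix.mulVec_mulVec, ← mt_mul]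
    congr 2
    group
  rcases hirr S hSst with h0 | h0
  · exfalso
    obtain ⟨i, hi⟩ : ∃ i, (v : Fin n → E) i ≠ 0 := by
      by_contra hcon
      push Not at hcon
      exact hv (Subtype.ext (funext hcon))
    obtain ⟨φ, hφ⟩ : ∃ φ : Module.Dual F E, φ ((v : Fin n → E) i) ≠ 0 := by
      by_contra hcon
      push Not at hcon
      exact hi ((Module.forall_dual_apply_eq_zero_iff F _).1 hcon)
    have h1 : (fun k => φ ((v : Fin n → E) k)) ∈ S := by
      intro u hu
      have h2 := hvU u hu
      funext k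
      have h3 := congrArg φ (congrFun h2 k)
      rw [Pi.smul_apply, smul_eq_mul, ← Algebra.smul_def, map_smul] at h3
      rw [Pi.smul_apply, ← h3]
      rw [Matrix.mulVec, Matrix.mulVec, dotProduct, dotProduct, map_sum]
      refine Finset.sum_congr rfl fun m _ => ?_
      have h4 : mE E ρ u k m * (v : Fin n → E) m = mt ρ u k m • (v : Fin n → E) m := by
        rw [Algebra.smul_def]
        rfl
      rw [h4, map_smul, smul_eq_mul]
    rw [h0, Submodule.mem_bot] at h1
    exact hφ (congrFun h1 i)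
  · intro u hu
    have h1 : ∀ w : Fin n → F, (mt ρ u).mulVec w = (ψ j u • (1 : Matrix _ _ F)).mulVec w := by
      intro w
      have hw : w ∈ S := by
        rw [h0]
        trivial
      rw [hw u hu, Matrix.smul_mulVec, Matrix.one_mulVec]
    exact Matrix.toLin'.injective (LinearMap.ext fun w => by
      rw [Matrix.toLin'_apply, Matrix.toLin'_apply]
      exact h1 w)

end core

end Pool.Agent.T9h32.EV
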