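import Mathlib

/-!
# Noetherian families of closed sets in a compact group (helper32)
-/

set_option autoImplicit false

namespace Pool.Agent.T9h32.EV

open MeasureTheory Topology Pointwise

/-- a family of closed sets, stable under intersections and left translations, with the minimum
condition -/
structure ZFam {Γ : Type*} [Group Γ] [TopologicalSpace Γ] (𝓕 : Set (Set Γ)) : Prop where
  univ : Set.univ ∈ 𝓕
  closed : ∀ Z ∈ 𝓕, IsClosed Z
  inter : ∀ Z ∈ 𝓕, ∀ Z' ∈ 𝓕, Z ∩ Z' ∈ 𝓕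
  left : ∀ Z ∈ 𝓕, ∀ g : Γ, (fun x => g * x) ⁻¹' Z ∈ 𝓕
  wf : ∀ S ⊆ 𝓕, S.Nonempty → ∃ Z ∈ S, ∀ Z' ∈ S, Z' ⊆ Z → Z' = Z

variable {Γ : Type*} [Group Γ] [TopologicalSpace Γ] [IsTopologicalGroup Γ] [CompactSpace Γ]
  [MeasurableSpace Γ] [BorelSpace Γ]

/-- for small open normal subgroups the members of the family contain all or almost nothing of each
coset -/
theorem dichotomy (μ : Measure Γ) [μ.IsMulLeftInvariant] [IsFiniteMeasure μ]
    (hμ : μ Set.univ ≠ 0) {𝓕 : Set (Set Γ)} (h : ZFam 𝓕) :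
    ∃ U : Subgroup Γ, IsOpen (U : Set Γ) ∧ U.Normal ∧
      ∀ Z ∈ 𝓕, ∀ g : Γ, μ (Z ∩ {x | g⁻¹ * x ∈ U}) ≠ 0 → ∀ u ∈ U, g * u ∈ Z := by
  obtain ⟨Z₀, ⟨hZ₀, hpos⟩, hmin⟩ := h.wf {Z | Z ∈ 𝓕 ∧ μ Z ≠ 0} (fun Z hZ => hZ.1)
    ⟨Set.univ, h.univ, hμ⟩
  set T : Γ → Set Γ := fun g => (fun x => g⁻¹ * x) ⁻¹' Z₀ with hT
  have hTμ : ∀ g, μ (T g) = μ Z₀ := fun g => measure_preimage_mul μ g⁻¹ Z₀
  have hTF : ∀ g, T g ∈ 𝓕 := fun g => h.left Z₀ hZ₀ g⁻¹
  have hTs : ∀ g, T g = g • Z₀ := by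
    intro g
    ext x
    rw [Set.mem_smul_set_iff_inv_smul_mem]
    rfl
  have ha : ∀ Z ∈ 𝓕, ∀ g, μ (Z ∩ T g) ≠ 0 → T g ⊆ Z := by
    intro Z hZ g hne
    have h1 : (fun x => g * x) ⁻¹' (Z ∩ T g) = (fun x => g * x) ⁻¹' Z ∩ Z₀ := by
      ext x
      simp [hT]
    have h2 : (fun x => g * x) ⁻¹' Z ∩ Z₀ = Z₀ := by
      refine hmin _ ⟨h.inter _ (h.left Z hZ g) _ hZ₀, ?_⟩ Set.inter_subset_right
      rw [← h1, measure_preimage_mul]
      exact hne
    intro x hx
    have h3 : g⁻¹ * x ∈ (fun x => g * x) ⁻¹' Z ∩ Z₀ := by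
      rw [h2]
      exact hx
    have h4 := h3.1
    rw [Set.mem_preimage, mul_inv_cancel_left] at h4
    exact h4
  -- finitely many translates
  have hfin : Finite (Set.range T) := by
    have h1 := Measure.finite_const_le_meas_of_disjoint_iUnion₀ μ (ε := μ Z₀)
      (pos_iff_ne_zero.2 hpos) (As := fun i : Set.range T => (i : Set Γ)) (by
        rintro ⟨_, g, rfl⟩
        exact (h.closed _ (hTF g)).measurableSet.nullMeasurableSet) (by
        rintro ⟨_, g, rfl⟩ ⟨_, g', rfl⟩ hne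
        by_contra hcon
        apply hne
        have h2 : μ (T g ∩ T g') ≠ 0 := hcon
        apply Subtype.ext
        refine Set.Subset.antisymm ?_ (ha _ (hTF g) g' h2)
        apply ha _ (hTF g') g
        rwa [Set.inter_comm]) (measure_ne_top _ _)
    have h2 : {i : Set.range T | μ Z₀ ≤ μ (i : Set Γ)} = Set.univ := by
      ext ⟨_, g, rfl⟩
      simp [hTμ]
    rw [h2] at h1
    exact Set.finite_univ_iff.1 h1
  set W : Subgroup Γ := MulAction.stabilizer Γ Z₀ with hW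
  have hWfi : W.FiniteIndex := by
    have h1 : Finite (MulAction.orbit Γ Z₀) := by
      refine Set.Finite.subset (Set.toFinite (Set.range T)) ?_
      rintro _ ⟨g, rfl⟩
      exact ⟨g, hTs g⟩
    have h2 : Finite (Γ ⧸ W) := Finite.of_equiv _ (MulAction.orbitEquivQuotientStabilizer Γ Z₀)
    exact Subgroup.finiteIndex_of_finite_quotient
  have hWc : IsClosed (W : Set Γ) := by
    have h1 : (W : Set Γ) = (⋂ z ∈ Z₀, (fun g => g * z) ⁻¹' Z₀) ∩
        (⋂ z ∈ Z₀, (fun g => g⁻¹ * z) ⁻¹' Z₀) := by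
      ext g
      rw [SetLike.mem_coe, hW, MulAction.mem_stabilizer_iff]
      simp only [Set.mem_inter_iff, Set.mem_iInter, Set.mem_preimage]
      constructor
      · intro hg
        refine ⟨fun z hz => ?_, fun z hz => ?_⟩
        · rw [← hg]
          exact Set.smul_mem_smul_set hz
        · rw [← hg, Set.mem_smul_set_iff_inv_smul_mem] at hz
          exact hz
      · rintro ⟨h1, h2⟩
        refine Set.Subset.antisymm ?_ ?_
        · rintro _ ⟨z, hz, rfl⟩
          exact h1 z hz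
        · intro z hz
          rw [Set.mem_smul_set_iff_inv_smul_mem]
          exact h2 z hz
    rw [h1]
    refine IsClosed.inter ?_ ?_
    · exact isClosed_biInter fun z _ =>
        (h.closed _ hZ₀).preimage (continuous_id.mul continuous_const)
    · exact isClosed_biInter fun z _ =>
        (h.closed _ hZ₀).preimage (continuous_inv.mul continuous_const)
  obtain ⟨z₀, hz₀⟩ : Z₀.Nonempty := by
    rw [Set.nonempty_iff_ne_empty]
    rintro rfl
    exact hpos measure_empty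
  refine ⟨W.normalCore, Subgroup.isOpen_of_isClosed_of_finiteIndex _ (W.normalCore_isClosed hWc),
    inferInstance, ?_⟩
  intro Z hZ g hne
  have hsub : ∀ u ∈ W.normalCore, g * u ∈ T (g * z₀⁻¹) := by
    intro u hu
    have h1 : z₀ * u * z₀⁻¹ ∈ W.normalCore :=
      (inferInstance : W.normalCore.Normal).conj_mem u hu z₀
    have h2 : z₀ * u * z₀⁻¹ ∈ W := W.normalCore_le h1
    rw [hW, MulAction.mem_stabilizer_iff] at h2
    have h3 : (z₀ * u * z₀⁻¹) • z₀ ∈ (z₀ * u * z₀⁻¹) • Z₀ := Set.smul_mem_smul_set hz₀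
    rw [h2, smul_eq_mul, inv_mul_cancel_right] at h3
    rw [hT, Set.mem_preimage]
    convert h3 using 1
    group
  have h5 : T (g * z₀⁻¹) ⊆ Z := by
    apply ha Z hZ
    intro h0
    apply hne
    refine measure_mono_null ?_ h0
    rintro x ⟨hx1, hx2⟩
    refine ⟨hx1, ?_⟩
    have := hsub _ hx2
    rwa [mul_inv_cancel_left] at this
  intro u hu
  exact h5 (hsub u hu)

/-- the measure of a closed set, and the cosets it meets -/
theorem le_measure [TotallyDisconnectedSpace Γ] (μ : Measure Γ) [μ.IsMulLeftInvariant]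
    [IsProbabilityMeasure μ] [μ.OuterRegular] {X : Set Γ} (hX : IsClosed X) {c : ℝ}
    (h : ∀ W : Subgroup Γ, IsOpen (W : Set Γ) → ∀ A : Finset Γ,
      (∀ g ∈ X, ∃ a ∈ A, a⁻¹ * g ∈ W) → c * W.index ≤ A.card) :
    ENNReal.ofReal c ≤ μ X := by
  classical
  refine le_of_forall_gt fun t ht => ?_
  obtain ⟨O, hXO, hO, hOt⟩ := X.exists_isOpen_lt_of_lt t ht
  refine lt_of_le_of_lt ?_ hOt
  -- a uniform neighbourhood
  obtain ⟨W, hW⟩ : ∃ W : OpenNormalSubgroup Γ, ∀ x ∈ X, ∀ w ∈ (W : Subgroup Γ), x * w ∈ O := by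
    obtain ⟨V, hV, hVO⟩ : ∃ V ∈ 𝓝 (1 : Γ), X * V ⊆ O :=
      compact_open_separated_mul_right hX.isCompact hO hXO
    obtain ⟨s, hs1, hs2, hs3⟩ := mem_nhds_iff.1 hV
    obtain ⟨W, hW⟩ := ProfiniteGrp.exist_openNormalSubgroup_sub_open_nhds_of_one hs2 hs3
    exact ⟨W, fun x hx w hw => hVO ⟨x, hx, w, hs1 (hW hw), rfl⟩⟩
  have hWo : IsOpen ((W : Subgroup Γ) : Set Γ) := W.isOpen'
  have hfin : Finite (Γ ⧸ (W : Subgroup Γ)) := Subgroup.quotient_finite_of_isOpen _ hWo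
  have hfi : (W : Subgroup Γ).FiniteIndex := Subgroup.finiteIndex_of_finite_quotient
  -- representatives of the cosets meeting `X`
  set Q : Set (Γ ⧸ (W : Subgroup Γ)) := (QuotientGroup.mk : Γ → Γ ⧸ (W : Subgroup Γ)) '' X with hQ
  set A : Finset Γ := (Set.toFinite Q).toFinset.image (fun q => q.out) with hA
  have hA1 : ∀ g ∈ X, ∃ a ∈ A, a⁻¹ * g ∈ (W : Subgroup Γ) := by
    intro g hg
    refine ⟨(QuotientGroup.mk g : Γ ⧸ (W : Subgroup Γ)).out, ?_, ?_⟩
    · rw [hA, Finset.mem_image]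
      exact ⟨_, (Set.Finite.mem_toFinset _).2 ⟨g, hg, rfl⟩, rfl⟩
    · rw [← QuotientGroup.eq, QuotientGroup.out_eq']
  have h1 := h W hWo A hA1
  -- the union of these cosets is contained in `O`
  have h2 : ⋃ a ∈ A, (fun x => a⁻¹ * x) ⁻¹' ((W : Subgroup Γ) : Set Γ) ⊆ O := by
    intro y hy
    rw [Set.mem_iUnion₂] at hy
    obtain ⟨a, ha, hay⟩ := hy
    rw [hA, Finset.mem_image] at ha
    obtain ⟨q, hq, rfl⟩ := ha
    obtain ⟨x, hx, rfl⟩ := (Set.Finite.mem_toFinset _).1 hq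
    have h3 : x⁻¹ * (QuotientGroup.mk x : Γ ⧸ (W : Subgroup Γ)).out ∈ (W : Subgroup Γ) := by
      rw [← QuotientGroup.eq, QuotientGroup.out_eq']
    have h4 := hW x hx _ ((W : Subgroup Γ).mul_mem h3 hay)
    have h5 : x * (x⁻¹ * (QuotientGroup.mk x : Γ ⧸ (W : Subgroup Γ)).out *
        ((QuotientGroup.mk x : Γ ⧸ (W : Subgroup Γ)).out⁻¹ * y)) = y := by group
    rwa [h5] at h4
  have h3 : μ (⋃ a ∈ A, (fun x => a⁻¹ * x) ⁻¹' ((W : Subgroup Γ) : Set Γ)) =
      A.card * μ ((W : Subgroup Γ) : Set Γ) := by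
    rw [measure_biUnion_finset]
    · rw [Finset.sum_congr rfl fun a _ => measure_preimage_mul μ a⁻¹ _, Finset.sum_const,
        nsmul_eq_mul]
    · intro a ha b hb hab
      rw [Function.onFun, Set.disjoint_left]
      intro x hxa hxb
      apply hab
      rw [hA, Finset.coe_image] at ha hb
      obtain ⟨q, hq, rfl⟩ := ha
      obtain ⟨q', hq', rfl⟩ := hb
      congr 1
      rw [← QuotientGroup.out_eq' q, ← QuotientGroup.out_eq' q', QuotientGroup.eq]
      have h5 := (W : Subgroup Γ).mul_mem hxa ((W : Subgroup Γ).inv_mem hxb)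
      have h6 : (fun x => q.out⁻¹ * x) x * ((fun x => q'.out⁻¹ * x) x)⁻¹ =
        q.out⁻¹ * q'.out := by
        simp only
        group
      rw [← h6]
      exact h5
    · intro a _
      exact (hWo.measurableSet).preimage (measurable_const_mul _)
  have h4 := Subgroup.index_mul_measure (W : Subgroup Γ) hWo.measurableSet μ
  rw [measure_univ] at h4
  have hidx : ((W : Subgroup Γ).index : ENNReal) ≠ 0 := by
    exact_mod_cast hfi.index_ne_zero
  have h5 : μ ((W : Subgroup Γ) : Set Γ) = ((W : Subgroup Γ).index : ENNReal)⁻¹ :=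
    ENNReal.eq_inv_of_mul_eq_one_left (by rw [mul_comm]; exact h4)
  refine le_trans ?_ (measure_mono h2)
  rw [h3, h5, ← div_eq_mul_inv, ENNReal.le_div_iff_mul_le (Or.inl hidx)
    (Or.inl (ENNReal.natCast_ne_top _))]
  have h6 := ENNReal.ofReal_le_ofReal h1
  rw [ENNReal.ofReal_mul' (Nat.cast_nonneg _), ENNReal.ofReal_natCast,
    ENNReal.ofReal_natCast] at h6
  exact h6

end Pool.Agent.T9h32.EV
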