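import Pool.Agent.T9h32.EV.Alg

/-!
# Simple subspaces of a normal subgroup which are stable under a further element (helper32)
-/

set_option autoImplicit false

namespace Pool.Agent.T9h32.EV

open Module

section
variable {E : Type*} [Field E] {V : Type*} [AddCommGroup V] [Module E V] {Γ : Type*} [Group Γ]
  (ρ : Γ →* Module.End E V) (U : Subgroup Γ)

/-- stable subspaces -/
def StU (W : Submodule E V) : Prop := ∀ u ∈ U, ∀ x ∈ W, ρ u x ∈ W

/-- simple subspaces -/
def SimU (W : Submodule E V) : Prop :=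
  StU ρ U W ∧ W ≠ ⊥ ∧ ∀ W' ≤ W, StU ρ U W' → W' = ⊥ ∨ W' = W

variable {ρ U}

theorem rho_inv (g : Γ) (x : V) : ρ g⁻¹ (ρ g x) = x := by
  rw [← Module.End.mul_apply, ← map_mul, inv_mul_cancel, map_one, Module.End.one_apply]

theorem rho_inv' (g : Γ) (x : V) : ρ g (ρ g⁻¹ x) = x := by
  rw [← Module.End.mul_apply, ← map_mul, mul_inv_cancel, map_one, Module.End.one_apply]

theorem rho_mul (g h : Γ) (x : V) : ρ (g * h) x = ρ g (ρ h x) := by
  rw [map_mul, Module.End.mul_apply]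

theorem rho_inj (g : Γ) {x y : V} (h : ρ g x = ρ g y) : x = y := by
  rw [← rho_inv (ρ := ρ) g x, h, rho_inv]

theorem exists_simple [FiniteDimensional E V] [Nontrivial V] : ∃ W, SimU ρ U W := by
  have hwf : WellFounded ((· < ·) : Submodule E V → Submodule E V → Prop) := wellFounded_lt
  obtain ⟨W, ⟨h1, h2⟩, hmin⟩ := hwf.has_min {W : Submodule E V | StU ρ U W ∧ W ≠ ⊥}
    ⟨⊤, fun _ _ _ _ => trivial, top_ne_bot⟩
  refine ⟨W, h1, h2, fun W' hle hst => ?_⟩
  by_cases hb : W' = ⊥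
  · exact Or.inl hb
  · right
    by_contra hne
    exact hmin W' ⟨hst, hb⟩ (lt_of_le_of_ne hle hne)

/-- the translate -/
def tr (ρ : Γ →* Module.End E V) (g : Γ) (W : Submodule E V) : Submodule E V := W.map (ρ g)

theorem StU.tr [U.Normal] {W : Submodule E V} (h : StU ρ U W) (g : Γ) : StU ρ U (tr ρ g W) := by
  rintro u hu _ ⟨x, hx, rfl⟩
  refine ⟨ρ (g⁻¹ * u * g) x, h _ ?_ x hx, ?_⟩
  · have := (inferInstance : U.Normal).conj_mem u hu g⁻¹
    rwa [inv_inv] at this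
  · rw [← rho_mul, ← rho_mul]
    congr 2
    group

theorem SimU.tr [U.Normal] {W : Submodule E V} (h : SimU ρ U W) (g : Γ) :
    SimU ρ U (tr ρ g W) := by
  refine ⟨h.1.tr g, ?_, ?_⟩
  · intro h0
    apply h.2.1
    rw [eq_bot_iff]
    intro x hx
    have h1 : ρ g x ∈ EV.tr ρ g W := ⟨x, hx, rfl⟩
    rw [h0, Submodule.mem_bot] at h1
    rw [Submodule.mem_bot]
    apply rho_inj (ρ := ρ) g
    rw [h1, map_zero]
  · intro W' hle hst
    have h1 : StU ρ U (EV.tr ρ g⁻¹ W') := hst.tr g⁻¹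
    have h2 : EV.tr ρ g⁻¹ W' ≤ W := by
      rintro _ ⟨x, hx, rfl⟩
      obtain ⟨y, hy, rfl⟩ := hle hx
      rw [rho_inv]
      exact hy
    have h3 : W' = EV.tr ρ g (EV.tr ρ g⁻¹ W') := by
      ext x
      constructor
      · intro hx
        exact ⟨ρ g⁻¹ x, ⟨x, hx, rfl⟩, rho_inv' g x⟩
      · rintro ⟨_, ⟨y, hy, rfl⟩, rfl⟩
        rw [rho_inv']
        exact hy
    rcases h.2.2 _ h2 h1 with h4 | h4
    · left
      rw [h3, h4]
      exact Submodule.map_bot _
    · right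
      rw [h3, h4]

/-- the intertwining relation -/
def Twin (ρ : Γ →* Module.End E V) (U : Subgroup Γ) (W : Submodule E V) (hW : StU ρ U W)
    (g : Γ) : Prop :=
  ∃ A : W →ₗ[E] W, Function.Injective A ∧ ∀ (u : Γ) (hu : u ∈ U) (w : W),
    (A ⟨ρ u w, hW u hu w w.2⟩ : V) = ρ (g * u * g⁻¹) (A w : V)

/-- the binary step -/
theorem twin_step [U.Normal] {W S : Submodule E V} (h : SimU ρ U W) (hS : StU ρ U S) {g γ : Γ}
    (hle : tr ρ g W ≤ tr ρ γ W ⊔ S) (hnle : ¬ tr ρ g W ≤ S) : Twin ρ U W h.1 (γ⁻¹ * g) := by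
  have hgS : tr ρ g W ⊓ S = ⊥ := by
    rcases (h.tr g).2.2 _ inf_le_left (fun u hu x hx => ⟨(h.tr g).1 u hu x hx.1, hS u hu x hx.2⟩)
      with h1 | h1
    · exact h1
    · exact absurd (inf_eq_left.1 h1) hnle
  have hγS : tr ρ γ W ⊓ S = ⊥ := by
    rcases (h.tr γ).2.2 _ inf_le_left (fun u hu x hx => ⟨(h.tr γ).1 u hu x hx.1, hS u hu x hx.2⟩)
      with h1 | h1
    · exact h1
    · exact absurd (hle.trans (sup_le (inf_eq_left.1 h1) le_rfl)) hnle
  have hex : ∀ w : W, ∃ w' : W, ρ g w - ρ γ w' ∈ S := by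
    intro w
    have h1 : ρ g w ∈ tr ρ γ W ⊔ S := hle ⟨w, w.2, rfl⟩
    obtain ⟨y, ⟨w', hw', rfl⟩, z, hz, hyz⟩ := Submodule.mem_sup.1 h1
    refine ⟨⟨w', hw'⟩, ?_⟩
    rw [← hyz, add_sub_cancel_left]
    exact hz
  have huniq : ∀ (x : V) (w w' : W), x - ρ γ w ∈ S → x - ρ γ w' ∈ S → w = w' := by
    intro x w w' h1 h2
    have h3 := S.sub_mem h2 h1
    have e : x - ρ γ w' - (x - ρ γ w) = ρ γ ((w - w' : W) : V) := by
      rw [Submodule.coe_sub, map_sub]
      abel
    rw [e] at h3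
    have h4 : ρ γ ((w - w' : W) : V) ∈ tr ρ γ W ⊓ S := ⟨⟨_, (w - w').2, rfl⟩, h3⟩
    rw [hγS, Submodule.mem_bot] at h4
    have h5 : ((w - w' : W) : V) = 0 := rho_inj (ρ := ρ) γ (by rw [h4, map_zero])
    rw [← sub_eq_zero]
    exact Subtype.ext h5
  choose A hA using hex
  refine ⟨{ toFun := A, map_add' := fun x y => ?_, map_smul' := fun c x => ?_ }, ?_, ?_⟩
  · refine huniq (ρ g ((x + y : W) : V)) _ _ (hA _) ?_
    have := S.add_mem (hA x) (hA y)
    convert this using 1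
    rw [Submodule.coe_add, map_add, Submodule.coe_add, map_add]
    abel
  · refine huniq (ρ g ((c • x : W) : V)) _ _ (hA _) ?_
    have := S.smul_mem c (hA x)
    convert this using 1
    rw [Submodule.coe_smul, map_smul, RingHom.id_apply, Submodule.coe_smul, map_smul, smul_sub]
  · intro x y hxy
    have hxy' : A x = A y := hxy
    have h1 := S.sub_mem (hA x) (hA y)
    rw [hxy'] at h1
    have e : ρ g x - ρ γ (A y) - (ρ g y - ρ γ (A y)) = ρ g ((x - y : W) : V) := by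
      rw [Submodule.coe_sub, map_sub]
      abel
    rw [e] at h1
    have h4 : ρ g ((x - y : W) : V) ∈ tr ρ g W ⊓ S := ⟨⟨_, (x - y).2, rfl⟩, h1⟩
    rw [hgS, Submodule.mem_bot] at h4
    have h5 : ((x - y : W) : V) = 0 := rho_inj (ρ := ρ) g (by rw [h4, map_zero])
    rw [← sub_eq_zero]
    exact Subtype.ext h5
  · intro u hu w
    have hconj : γ⁻¹ * g * u * (γ⁻¹ * g)⁻¹ ∈ U := (inferInstance : U.Normal).conj_mem u hu _
    have h1 : A ⟨ρ u w, h.1 u hu w w.2⟩ =
        ⟨ρ (γ⁻¹ * g * u * (γ⁻¹ * g)⁻¹) (A w : V), h.1 _ hconj _ (A w).2⟩ := by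
      refine huniq (ρ g (ρ u w)) _ _ (hA ⟨ρ u w, h.1 u hu w w.2⟩) ?_
      have hc2 : g * u * g⁻¹ ∈ U := (inferInstance : U.Normal).conj_mem u hu _
      have h2 := hS _ hc2 _ (hA w)
      have e1 : ρ g (ρ u w) = ρ (g * u * g⁻¹) (ρ g w) := by
        rw [← rho_mul g u, ← rho_mul (g * u * g⁻¹) g, inv_mul_cancel_right]
      have e2 : ρ γ (ρ (γ⁻¹ * g * u * (γ⁻¹ * g)⁻¹) (A w : V)) = ρ (g * u * g⁻¹) (ρ γ (A w : V)) := by
        rw [← rho_mul γ, ← rho_mul (g * u * g⁻¹) γ]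
        have e3 : γ * (γ⁻¹ * g * u * (γ⁻¹ * g)⁻¹) = g * u * g⁻¹ * γ := by group
        rw [e3]
      rw [e1, e2, ← map_sub]
      exact h2
    exact congrArg Subtype.val h1

/-- few translates suffice -/
theorem exists_list [FiniteDimensional E V] [U.Normal] {W : Submodule E V} (h : SimU ρ U W) :
    ∃ L : List Γ, L.length ≤ finrank E V ∧ ∀ g, ∃ γ ∈ L, Twin ρ U W h.1 (γ⁻¹ * g) := by
  let S : List Γ → Submodule E V := fun L => (L.map fun γ => tr ρ γ W).foldr (· ⊔ ·) ⊥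
  have hScons : ∀ γ L, S (γ :: L) = tr ρ γ W ⊔ S L := fun γ L => rfl
  have hSst : ∀ L, StU ρ U (S L) := by
    intro L
    induction L with
    | nil =>
      intro u hu x hx
      have h1 : x = 0 := (Submodule.mem_bot _).1 hx
      rw [h1, map_zero]
      exact Submodule.zero_mem _
    | cons γ L ih =>
      intro u hu x hx
      rw [hScons] at hx ⊢
      obtain ⟨y, hy, z, hz, rfl⟩ := Submodule.mem_sup.1 hx
      rw [map_add]
      exact Submodule.add_mem_sup ((h.tr γ).1 u hu y hy) (ih u hu z hz)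
  -- a list of maximal rank
  obtain ⟨L, hL1, hL2⟩ : ∃ L : List Γ, L.length ≤ finrank E (S L) ∧
      ∀ L' : List Γ, L'.length ≤ finrank E (S L') → finrank E (S L') ≤ finrank E (S L) := by
    set N : Set ℕ := {k | ∃ L : List Γ, L.length ≤ finrank E (S L) ∧ finrank E (S L) = k} with hN
    have hne : N.Nonempty := ⟨_, [], Nat.zero_le _, rfl⟩
    have hb : BddAbove N := ⟨finrank E V, by
      rintro _ ⟨L, -, rfl⟩
      exact Submodule.finrank_le _⟩
    obtain ⟨L, hL1, hL2⟩ := Nat.sSup_mem hne hb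
    exact ⟨L, hL1, fun L' hL' => by rw [hL2]; exact le_csSup hb ⟨L', hL', rfl⟩⟩
  have hall : ∀ g, tr ρ g W ≤ S L := by
    intro g
    by_contra hcon
    have hlt : S L < S (g :: L) := by
      rw [hScons]
      refine lt_of_le_of_ne le_sup_right fun heq => hcon ?_
      rw [heq]
      exact le_sup_left
    have h1 := Submodule.finrank_lt_finrank_of_lt hlt
    have h2 := hL2 (g :: L) (by
      rw [List.length_cons]
      omega)
    omega
  refine ⟨L, hL1.trans (Submodule.finrank_le _), fun g => ?_⟩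
  have key : ∀ L' : List Γ, tr ρ g W ≤ S L' → ∃ γ ∈ L', Twin ρ U W h.1 (γ⁻¹ * g) := by
    intro L'
    induction L' with
    | nil =>
      intro hle
      exact absurd (le_bot_iff.1 hle) (h.tr g).2.1
    | cons γ L' ih =>
      intro hle
      by_cases hc : tr ρ g W ≤ S L'
      · obtain ⟨γ', hγ', hT⟩ := ih hc
        exact ⟨γ', List.mem_cons_of_mem _ hγ', hT⟩
      · rw [hScons] at hle
        exact ⟨γ, List.mem_cons_self, twin_step h (hSst L') hle hc⟩
  exact key L (hall g)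

/-- a simple subspace which is stable under the further element -/
theorem exists_stable [FiniteDimensional E V] [IsAlgClosed E] [U.Normal] {W : Submodule E V}
    (h : SimU ρ U W) {g : Γ} (hT : Twin ρ U W h.1 g) :
    ∃ W' : Submodule E V, SimU ρ U W' ∧ ∀ x ∈ W', ρ g x ∈ W' := by
  obtain ⟨A, hAinj, hA⟩ := hT
  set Ae : W ≃ₗ[E] W := LinearEquiv.ofInjectiveEndo A hAinj with hAe
  have hAe1 : ∀ w, Ae w = A w := fun w => by rw [hAe]; rfl
  -- the space of intertwining maps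
  let M : Submodule E (W →ₗ[E] V) :=
    { carrier := {f | ∀ (u : Γ) (hu : u ∈ U) (w : W), f ⟨ρ u w, h.1 u hu w w.2⟩ = ρ u (f w)}
      add_mem' := by
        intro f f' hf hf' u hu w
        rw [LinearMap.add_apply, LinearMap.add_apply, hf u hu w, hf' u hu w, map_add]
      zero_mem' := by
        intro u hu w
        rw [LinearMap.zero_apply, LinearMap.zero_apply, map_zero]
      smul_mem' := by
        intro c f hf u hu w
        rw [LinearMap.smul_apply, LinearMap.smul_apply, hf u hu w, map_smul] }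
  have hsub : W.subtype ∈ M := fun u hu w => rfl
  have hMnt : Nontrivial M := by
    refine ⟨⟨W.subtype, hsub⟩, 0, fun h0 => h.2.1 ?_⟩
    rw [eq_bot_iff]
    intro x hx
    have h1 := congrArg (fun f : M => (f : W →ₗ[E] V) ⟨x, hx⟩) h0
    exact h1
  -- the twisted conjugation
  have hTM : ∀ f ∈ M, (ρ g).comp (f.comp (Ae.symm : W →ₗ[E] W)) ∈ M := by
    intro f hf u hu w
    have hconj : g⁻¹ * u * g ∈ U := by
      have := (inferInstance : U.Normal).conj_mem u hu g⁻¹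
      rwa [inv_inv] at this
    show ρ g (f (Ae.symm ⟨ρ u w, h.1 u hu w w.2⟩)) = ρ u (ρ g (f (Ae.symm w)))
    have h1 : Ae.symm ⟨ρ u w, h.1 u hu w w.2⟩ =
        ⟨ρ (g⁻¹ * u * g) (Ae.symm w : W), h.1 _ hconj _ (Ae.symm w).2⟩ := by
      rw [LinearEquiv.symm_apply_eq]
      apply Subtype.ext
      rw [hAe1, hA _ hconj]
      have h2 : g * (g⁻¹ * u * g) * g⁻¹ = u := by group
      rw [h2, ← hAe1, LinearEquiv.apply_symm_apply]
    rw [h1, hf _ hconj, ← rho_mul, ← rho_mul]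
    congr 2
    group
  let T : Module.End E M :=
    { toFun := fun f => ⟨(ρ g).comp ((f : W →ₗ[E] V).comp (Ae.symm : W →ₗ[E] W)), hTM f f.2⟩
      map_add' := by
        intro f f'
        apply Subtype.ext
        ext w
        simp
      map_smul' := by
        intro c f
        apply Subtype.ext
        ext w
        simp }
  obtain ⟨c, hc⟩ := Module.End.exists_eigenvalue T
  obtain ⟨f, hf⟩ := hc.exists_hasEigenvector
  have hf1 : T f = c • f := hf.apply_eq_smul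
  have hf2 : (f : W →ₗ[E] V) ≠ 0 := fun h0 => hf.2 (Subtype.ext h0)
  have hf3 : ∀ w : W, ρ g ((f : W →ₗ[E] V) w) = c • (f : W →ₗ[E] V) (Ae w) := by
    intro w
    have h1 := congrArg (fun f : M => (f : W →ₗ[E] V) (Ae w)) hf1
    have h2 : ρ g ((f : W →ₗ[E] V) (Ae.symm (Ae w))) = c • (f : W →ₗ[E] V) (Ae w) := h1
    rwa [LinearEquiv.symm_apply_apply] at h2
  refine ⟨LinearMap.range (f : W →ₗ[E] V), ⟨?_, ?_, ?_⟩, ?_⟩
  · rintro u hu _ ⟨w, rfl⟩
    exact ⟨⟨ρ u w, h.1 u hu w w.2⟩, f.2 u hu w⟩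
  · rwa [Ne, LinearMap.range_eq_bot]
  · intro W' hle hst
    have h1 : StU ρ U ((W'.comap (f : W →ₗ[E] V)).map W.subtype) := by
      rintro u hu _ ⟨w, hw, rfl⟩
      refine ⟨⟨ρ u w, h.1 u hu w w.2⟩, ?_, rfl⟩
      show (f : W →ₗ[E] V) ⟨ρ u w, h.1 u hu w w.2⟩ ∈ W'
      rw [f.2 u hu w]
      exact hst u hu _ hw
    rcases h.2.2 _ (Submodule.map_subtype_le _ _) h1 with h2 | h2
    · left
      rw [eq_bot_iff]
      intro x hx
      obtain ⟨w, rfl⟩ := hle hx
      have h3 : (w : V) ∈ (W'.comap (f : W →ₗ[E] V)).map W.subtype := ⟨w, hx, rfl⟩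
      rw [h2, Submodule.mem_bot] at h3
      have h4 : w = 0 := Subtype.ext h3
      rw [h4, map_zero]
      exact Submodule.zero_mem _
    · right
      refine le_antisymm hle ?_
      rintro _ ⟨w, rfl⟩
      have h3 : (w : V) ∈ (W'.comap (f : W →ₗ[E] V)).map W.subtype := by
        rw [h2]
        exact w.2
      obtain ⟨w', hw', hww⟩ := h3
      have h4 : w' = w := Subtype.ext hww
      rw [← h4]
      exact hw'
  · rintro _ ⟨w, rfl⟩
    rw [hf3]
    exact ⟨c • Ae w, by rw [map_smul]⟩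

end

end Pool.Agent.T9h32.EV
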