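import Pool.Agent.T9h32.EV.Zar
import Pool.Agent.T9h32.EV.Stab
import Pool.Agent.R401.Sup4

/-!
# Elements whose eigenvalues are values of characters up to roots of unity (helper32)
-/

set_option autoImplicit false

namespace Pool.Agent.T9h32.EV

open MeasureTheory Topology Polynomial Pool.Agent.R401.Img Module

section poly
variable {n : ℕ}

theorem map_aeval_matrix {A B : Type*} [CommRing A] [CommRing B] (f : A →+* B)
    (M : Matrix (Fin n) (Fin n) A) (p : A[X]) :
    f.mapMatrix (aeval M p) = aeval (f.mapMatrix M) (p.map f) := by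
  rw [aeval_def, aeval_def, hom_eval₂, eval₂_map]
  congr 1
  ext a i j
  simp only [RingHom.comp_apply, RingHom.mapMatrix_apply, Matrix.map_apply]
  rw [Matrix.algebraMap_matrix_apply, Matrix.algebraMap_matrix_apply]
  split_ifs
  · rfl
  · exact map_zero f

variable {E : Type*} [Field E] [IsAlgClosed E]

/-- the polynomial criterion -/
theorem eig_iff (M : Matrix (Fin n) (Fin n) E) {r N : ℕ} (c : Fin r → E) :
    (∀ z : E, M.charpoly.IsRoot z → ∃ j, z ^ N = c j ^ N) ↔
      aeval M ((∏ j, (X ^ N - C (c j ^ N))) ^ n) = 0 := by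
  constructor
  · intro h
    have h1 : M.charpoly ∣ (∏ j, (X ^ N - C (c j ^ N))) ^ n := by
      have hs := IsAlgClosed.splits M.charpoly
      have h2 := hs.eq_prod_roots
      have hm : M.charpoly.leadingCoeff = 1 := M.charpoly_monic
      rw [hm, C_1, one_mul] at h2
      rw [h2]
      have hcard : Multiset.card M.charpoly.roots ≤ n := by
        refine (card_roots' _).trans ?_
        rw [Matrix.charpoly_natDegree_eq_dim, Fintype.card_fin]
      have h3 : ∀ s : Multiset E, (∀ z ∈ s, ∃ j, z ^ N = c j ^ N) →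
          (s.map fun a => X - C a).prod ∣ (∏ j, (X ^ N - C (c j ^ N))) ^ (Multiset.card s) := by
        intro s
        induction s using Multiset.induction_on with
        | empty => intro _; simp
        | cons a s ih =>
          intro hs'
          rw [Multiset.map_cons, Multiset.prod_cons, Multiset.card_cons, pow_succ']
          refine mul_dvd_mul ?_ (ih fun z hz => hs' z (Multiset.mem_cons_of_mem hz))
          obtain ⟨j, hj⟩ := hs' a (Multiset.mem_cons_self a s)
          refine dvd_trans ?_ (Finset.dvd_prod_of_mem _ (Finset.mem_univ j))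
          rw [dvd_iff_isRoot]
          simp [hj]
      refine (h3 M.charpoly.roots fun z hz => h z ?_).trans (pow_dvd_pow _ hcard)
      exact (mem_roots'.1 hz).2
    obtain ⟨q, hq⟩ := h1
    rw [hq, map_mul, Matrix.aeval_self_charpoly, zero_mul]
  · intro h z hz
    obtain ⟨v, hv, hvz⟩ : ∃ v, v ≠ 0 ∧ M.mulVec v = z • v := by
      have h1 : Module.End.HasEigenvalue (Matrix.toLin' M) z := by
        rw [Module.End.hasEigenvalue_iff_isRoot_charpoly, Matrix.charpoly_toLin']
        exact hz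
      obtain ⟨v, hv⟩ := h1.exists_hasEigenvector
      exact ⟨v, hv.2, by simpa using hv.apply_eq_smul⟩
    have h2 : ∀ p : E[X], (aeval M p).mulVec v = (p.eval z) • v := by
      intro p
      induction p using Polynomial.induction_on' with
      | add p q hp hq => rw [map_add, Matrix.add_mulVec, hp, hq, eval_add, add_smul]
      | monomial k a =>
        rw [aeval_monomial, eval_monomial]
        have h3 : ∀ k : ℕ, (M ^ k).mulVec v = z ^ k • v := by
          intro k
          induction k with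
          | zero => simp
          | succ k ih => rw [pow_succ', ← Matrix.mulVec_mulVec, ih, Matrix.mulVec_smul, hvz,
              smul_smul, pow_succ]
        rw [← Matrix.mulVec_mulVec, h3, Matrix.mulVec_smul, Algebra.algebraMap_eq_smul_one,
          Matrix.smul_mulVec, Matrix.one_mulVec, smul_smul, mul_comm]
    have h3 := h2 ((∏ j, (X ^ N - C (c j ^ N))) ^ n)
    rw [h, Matrix.zero_mulVec] at h3
    have h4 : ((∏ j, (X ^ N - C (c j ^ N))) ^ n : E[X]).eval z = 0 := by
      by_contra hne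
      exact hv ((smul_eq_zero.1 h3.symm).resolve_left hne)
    rw [eval_pow] at h4
    have h5 := eq_zero_of_pow_eq_zero h4
    rw [eval_prod, Finset.prod_eq_zero_iff] at h5
    obtain ⟨j, -, hj⟩ := h5
    refine ⟨j, ?_⟩
    rw [eval_sub, eval_pow, eval_X, eval_C, sub_eq_zero] at hj
    exact hj

end poly

section good
variable {Γ : Type*} [Group Γ] {F : Type*} [Field F] (E : Type*) [Field E] [Algebra F E] {n r : ℕ}
  (ρ : Γ →* GL (Fin n) F) (ψ : Fin r → Γ →* F)

/-- the matrix over the large field -/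
def mE (g : Γ) : Matrix (Fin n) (Fin n) E := (mt ρ g).map (algebraMap F E)

theorem mE_eq (g : Γ) : mE E ρ g = (algebraMap F E).mapMatrix (mt ρ g) := rfl

theorem mE_mul (g h : Γ) : mE E ρ (g * h) = mE E ρ g * mE E ρ h := by
  rw [mE_eq, mE_eq, mE_eq, mt_mul, map_mul]

theorem mE_one : mE E ρ 1 = 1 := by
  rw [mE_eq, Pool.Agent.R401.Sup.mt_one, map_one]

/-- the good elements -/
def XX (N : ℕ) : Set Γ :=
  {g | ∀ z : E, (mE E ρ g).charpoly.IsRoot z → ∃ j, z ^ N = algebraMap F E (ψ j g) ^ N}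

/-- the coordinates -/
def xx : (Fin n × Fin n) ⊕ Fin r → Γ → F
  | Sum.inl ij => fun g => mt ρ g ij.1 ij.2
  | Sum.inr j => fun g => ψ j g

variable {E ρ ψ}

theorem psi_conj (j : Fin r) (g x : Γ) : ψ j (x * g * x⁻¹) = ψ j g := by
  rw [map_mul, map_mul, mul_comm (ψ j x), mul_assoc, ← map_mul, mul_inv_cancel, map_one, mul_one]

theorem XX_conj (N : ℕ) : ∀ g ∈ XX E ρ ψ N, ∀ x : Γ, x * g * x⁻¹ ∈ XX E ρ ψ N := by
  intro g hg x z hz
  have h1 : (mE E ρ (x * g * x⁻¹)).charpoly = (mE E ρ g).charpoly := by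
    let u : (Matrix (Fin n) (Fin n) E)ˣ :=
      { val := mE E ρ x
        inv := mE E ρ x⁻¹
        val_inv := by rw [← mE_mul, mul_inv_cancel, mE_one]
        inv_val := by rw [← mE_mul, inv_mul_cancel, mE_one] }
    have h2 : mE E ρ (x * g * x⁻¹) = (u : Matrix (Fin n) (Fin n) E) * mE E ρ g * (u⁻¹ : _ˣ) := by
      rw [mE_mul, mE_mul]
      rfl
    rw [h2, Matrix.coe_units_inv]
    exact Matrix.charpoly_units_conj u (mE E ρ g)
  rw [h1] at hz
  obtain ⟨j, hj⟩ := hg z hz
  refine ⟨j, ?_⟩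
  rw [psi_conj]
  exact hj

theorem coord_inl (i j : Fin n) :
    coord E (xx ρ ψ) (Sum.inl (i, j)) = fun g => mE E ρ g i j := rfl

theorem coord_inr (j : Fin r) :
    coord E (xx ρ ψ) (Sum.inr j) = fun g => algebraMap F E (ψ j g) := rfl

theorem mE_mem (i j : Fin n) : (fun g => mE E ρ g i j) ∈ reg E (xx ρ ψ) :=
  coord_mem (xx ρ ψ) (Sum.inl (i, j))

theorem psi_mem (j : Fin r) : (fun g => algebraMap F E (ψ j g)) ∈ reg E (xx ρ ψ) :=
  coord_mem (xx ρ ψ) (Sum.inr j)

theorem xx_left (g : Γ) (i : (Fin n × Fin n) ⊕ Fin r) :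
    (fun h => coord E (xx ρ ψ) i (g * h)) ∈ reg E (xx ρ ψ) := by
  rcases i with ⟨i, j⟩ | j
  · have h1 : (fun h => coord E (xx ρ ψ) (Sum.inl (i, j)) (g * h)) =
        ∑ k, (mE E ρ g i k) • (fun h => mE E ρ h k j) := by
      funext h
      rw [Finset.sum_apply]
      show mE E ρ (g * h) i j = _
      rw [mE_mul, Matrix.mul_apply]
      rfl
    rw [h1]
    exact Subalgebra.sum_mem _ fun k _ => Subalgebra.smul_mem _ (mE_mem k j) _
  · have h1 : (fun h => coord E (xx ρ ψ) (Sum.inr j) (g * h)) =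
        (algebraMap F E (ψ j g)) • (fun h => algebraMap F E (ψ j h)) := by
      funext h
      show algebraMap F E (ψ j (g * h)) = algebraMap F E (ψ j g) * algebraMap F E (ψ j h)
      rw [map_mul, map_mul]
    rw [h1]
    exact Subalgebra.smul_mem _ (psi_mem j) _

theorem XX_mem [IsAlgClosed E] (N : ℕ) : XX E ρ ψ N ∈ zfam E (xx ρ ψ) := by
  let 𝒜 := reg E (xx ρ ψ)
  let M : Matrix (Fin n) (Fin n) 𝒜 := Matrix.of fun i j => ⟨fun g => mE E ρ g i j, mE_mem i j⟩
  let c : Fin r → 𝒜 := fun j => ⟨fun g => algebraMap F E (ψ j g), psi_mem j⟩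
  let Q : Matrix (Fin n) (Fin n) 𝒜 := aeval M ((∏ j, (X ^ N - C (c j ^ N))) ^ n)
  refine ⟨Set.range fun ij : Fin n × Fin n => (Q ij.1 ij.2 : Γ → E), ?_, ?_⟩
  · rintro _ ⟨ij, rfl⟩
    exact (Q ij.1 ij.2).2
  · ext g
    let ev : 𝒜 →+* E := (Pi.evalRingHom (fun _ : Γ => E) g).comp 𝒜.val.toRingHom
    have h1 : ev.mapMatrix Q = aeval (mE E ρ g)
        ((∏ j, (X ^ N - C (algebraMap F E (ψ j g) ^ N))) ^ n) := by
      rw [map_aeval_matrix]
      congr 1
      rw [Polynomial.map_pow, Polynomial.map_prod]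
      congr 1
      refine Finset.prod_congr rfl fun j _ => ?_
      rw [Polynomial.map_sub, Polynomial.map_pow, map_X, map_C, map_pow]
      rfl
    have h2 : g ∈ XX E ρ ψ N ↔ ev.mapMatrix Q = 0 := by
      rw [h1]
      exact eig_iff (mE E ρ g) fun j => algebraMap F E (ψ j g)
    rw [h2]
    constructor
    · rintro h3 _ ⟨ij, rfl⟩
      exact congrFun (congrFun h3 ij.1) ij.2
    · intro h3
      ext i j
      exact h3 _ ⟨(i, j), rfl⟩

end good

end Pool.Agent.T9h32.EV
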