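import Pool.Agent.T9h32.EV.Dich

/-!
# Zero sets of regular functions on a compact group (helper32)
-/

set_option autoImplicit false

namespace Pool.Agent.T9h32.EV

open MeasureTheory Topology

section
variable {Γ : Type*} [Group Γ] {F E : Type*} [Field F] [Field E] [Algebra F E] {ι : Type*}

/-- the coordinate functions with values in `E` -/
def coord (E : Type*) [Field E] [Algebra F E] (x : ι → Γ → F) (i : ι) : Γ → E :=
  fun g => algebraMap F E (x i g)

/-- the algebra of regular functions -/
def reg (E : Type*) [Field E] [Algebra F E] (x : ι → Γ → F) : Subalgebra E (Γ → E) :=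
  Algebra.adjoin E (Set.range (coord E x))

/-- the zero set -/
def zs (S : Set (Γ → E)) : Set Γ := {g | ∀ f ∈ S, f g = 0}

/-- the zero sets of regular functions -/
def zfam (E : Type*) [Field E] [Algebra F E] (x : ι → Γ → F) : Set (Set Γ) :=
  {Z | ∃ S : Set (Γ → E), S ⊆ reg E x ∧ Z = zs S}

theorem coord_mem (x : ι → Γ → F) (i : ι) : coord E x i ∈ reg E x :=
  Algebra.subset_adjoin ⟨i, rfl⟩

theorem reg_left {x : ι → Γ → F}
    (hl : ∀ (g : Γ) (i : ι), (fun h => coord E x i (g * h)) ∈ reg E x) (g : Γ) {f : Γ → E}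
    (hf : f ∈ reg E x) : (fun h => f (g * h)) ∈ reg E x := by
  let L : (Γ → E) →ₐ[E] (Γ → E) :=
    { toFun := fun f h => f (g * h)
      map_one' := rfl
      map_mul' := fun _ _ => rfl
      map_zero' := rfl
      map_add' := fun _ _ => rfl
      commutes' := fun _ => rfl }
  have h1 : (reg E x).map L ≤ reg E x := by
    unfold reg
    rw [AlgHom.map_adjoin, Algebra.adjoin_le_iff]
    rintro _ ⟨_, ⟨i, rfl⟩, rfl⟩
    exact hl g i
  exact h1 ⟨f, hf, rfl⟩

variable [TopologicalSpace Γ] [IsTopologicalGroup Γ] [TopologicalSpace F] [IsTopologicalRing F]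
  [T2Space F]

theorem cont_dual {x : ι → Γ → F} (hx : ∀ i, Continuous (x i)) {f : Γ → E} (hf : f ∈ reg E x)
    (l : E →ₗ[F] F) : Continuous fun g => l (f g) := by
  have h1 : f ∈ Submodule.span E (Submonoid.closure (Set.range (coord E x)) : Set (Γ → E)) := by
    rw [← Algebra.adjoin_eq_span]
    exact hf
  clear hf
  induction h1 using Submodule.span_induction generalizing l with
  | mem f hf' =>
    obtain ⟨m, hm, rfl⟩ : ∃ m : Γ → F, Continuous m ∧ f = fun g => algebraMap F E (m g) := by
      induction hf' using Submonoid.closure_induction with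
      | mem f hf =>
        obtain ⟨i, rfl⟩ := hf
        exact ⟨x i, hx i, rfl⟩
      | one => exact ⟨fun _ => 1, continuous_const, by funext g; simp⟩
      | mul f f' _ _ h1 h2 =>
        obtain ⟨m, hm, rfl⟩ := h1
        obtain ⟨m', hm', rfl⟩ := h2
        exact ⟨fun g => m g * m' g, hm.mul hm', by funext g; simp⟩
    have h2 : (fun g => l (algebraMap F E (m g))) = fun g => m g * l 1 := by
      funext g
      rw [Algebra.algebraMap_eq_smul_one, map_smul, smul_eq_mul]
    rw [h2]
    exact hm.mul continuous_const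
  | zero =>
    simp only [Pi.zero_apply, map_zero]
    exact continuous_const
  | add f f' hf1 hf2 h1 h2 =>
    simp only [Pi.add_apply, map_add]
    exact (h1 l).add (h2 l)
  | smul a f hf1 h1 =>
    exact h1 (l.comp (LinearMap.mulLeft F a))

theorem closed_zero {x : ι → Γ → F} (hx : ∀ i, Continuous (x i)) {f : Γ → E} (hf : f ∈ reg E x) :
    IsClosed {g | f g = 0} := by
  have h1 : {g | f g = 0} = ⋂ l : Module.Dual F E, {g | l (f g) = 0} := by
    ext g
    rw [Set.mem_iInter]
    exact (Module.forall_dual_apply_eq_zero_iff F (f g)).symm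
  rw [h1]
  exact isClosed_iInter fun l => isClosed_eq (cont_dual hx hf l) continuous_const

theorem zFam_zfam [Finite ι] {x : ι → Γ → F} (hx : ∀ i, Continuous (x i))
    (hl : ∀ (g : Γ) (i : ι), (fun h => coord E x i (g * h)) ∈ reg E x) :
    ZFam (zfam E x) := by
  refine ⟨⟨∅, Set.empty_subset _, ?_⟩, ?_, ?_, ?_, ?_⟩
  · ext g
    simp [zs]
  · rintro _ ⟨S, hS, rfl⟩
    have h1 : zs S = ⋂ f ∈ S, {g | f g = 0} := by
      ext g
      simp [zs]
    rw [h1]
    exact isClosed_biInter fun f hf => closed_zero hx (hS hf)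
  · rintro _ ⟨S, hS, rfl⟩ _ ⟨S', hS', rfl⟩
    refine ⟨S ∪ S', Set.union_subset hS hS', ?_⟩
    ext g
    constructor
    · rintro ⟨h1, h2⟩ f (hf | hf)
      · exact h1 f hf
      · exact h2 f hf
    · intro h
      exact ⟨fun f hf => h f (Or.inl hf), fun f hf => h f (Or.inr hf)⟩
  · rintro _ ⟨S, hS, rfl⟩ g
    refine ⟨(fun f h => f (g * h)) '' S, ?_, ?_⟩
    · rintro _ ⟨f, hf, rfl⟩
      exact reg_left hl g (hS hf)
    · ext h
      constructor
      · rintro h1 _ ⟨f, hf, rfl⟩
        exact h1 f hf
      · intro h1 f hf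
        exact h1 _ ⟨f, hf, rfl⟩
  · intro S hS hne
    have hft : Algebra.FiniteType E (reg E x) := by
      rw [← Subalgebra.fg_iff_finiteType]
      refine ⟨(Set.finite_range (coord E x)).toFinset, ?_⟩
      rw [Set.Finite.coe_toFinset]
      rfl
    have hnoeth : IsNoetherianRing (reg E x) := Algebra.FiniteType.isNoetherianRing E _
    let V : Set Γ → Ideal (reg E x) := fun Z =>
      { carrier := {f | ∀ g ∈ Z, (f : Γ → E) g = 0}
        add_mem' := by
          intro a b ha hb g hg
          have h1 := ha g hg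
          have h2 := hb g hg
          show (a : Γ → E) g + (b : Γ → E) g = 0
          rw [h1, h2, add_zero]
        zero_mem' := fun g _ => rfl
        smul_mem' := by
          intro c a ha g hg
          show (c : Γ → E) g * (a : Γ → E) g = 0
          rw [ha g hg, mul_zero] }
    have hV : ∀ Z ∈ S, Z = {g | ∀ f ∈ V Z, (f : Γ → E) g = 0} := by
      intro Z hZ
      obtain ⟨S', hS', rfl⟩ := hS hZ
      ext g
      constructor
      · intro hg f hf
        exact hf g hg
      · intro hg f hf
        exact hg ⟨f, hS' hf⟩ fun g' hg' => hg' f hf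
    obtain ⟨_, ⟨Z, hZ, rfl⟩, hmax⟩ := (wellFounded_gt : WellFounded
      ((· > ·) : Ideal (reg E x) → Ideal (reg E x) → Prop)).has_min (V '' S) (hne.image V)
    refine ⟨Z, hZ, fun Z' hZ' hsub => ?_⟩
    have h1 : V Z ≤ V Z' := fun f hf g hg => hf g (hsub hg)
    have h2 : V Z = V Z' := by
      by_contra hcon
      exact hmax (V Z') ⟨Z', hZ', rfl⟩ (lt_of_le_of_ne h1 hcon)
    rw [hV Z hZ, hV Z' hZ', h2]

end

end Pool.Agent.T9h32.EV
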